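import Pool.Agent.R25.Rp.Defs

set_option autoImplicit false

namespace Pool.Agent.R25.Rp

open Finset

/-- Recursive partitionability on the level of profiles. -/
inductive RPb {I : Type*} [Fintype I] : (Option I → ℕ) → Prop
  | one (c : Option I → ℕ) (h : ∑ o, c o = 1) : RPb c
  | step (c : Option I → ℕ) (hn : 0 < ∑ o, c o)
      (hconn : 0 < c none ∨ ∀ i i', 0 < c (some i) → 0 < c (some i') → i = i')
      (f : ℕ → Option I → ℕ)
      (hf : ∀ t, 0 < t → t < ∑ o, c o → (∀ o, f t o ≤ c o) ∧ ∑ o, f t o = t)
      (h1 : ∀ t, 0 < t → t < ∑ o, c o → RPb (f t))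
      (h2 : ∀ t, 0 < t → t < ∑ o, c o → RPb (fun o => c o - f t o)) : RPb c

section prof

variable {V I : Type*} [DecidableEq V] [DecidableEq I] [Fintype I] (lb : V → Option I)

/-- Number of vertices of each label. -/
def prof (S : Finset V) (o : Option I) : ℕ := (S.filter fun v => lb v = o).card

lemma sum_prof (S : Finset V) : ∑ o, prof lb S o = S.card := by
  unfold prof
  exact (Finset.card_eq_sum_card_fiberwise (f := lb) (t := Finset.univ)
    (fun v _ => Finset.mem_coe.2 (Finset.mem_univ _))).symm

lemma prof_union {A B : Finset V} (h : Disjoint A B) (o : Option I) :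
    prof lb (A ∪ B) o = prof lb A o + prof lb B o := by
  unfold prof
  rw [Finset.filter_union, Finset.card_union_of_disjoint]
  exact Finset.disjoint_filter_filter h

lemma prof_mono {A B : Finset V} (h : A ⊆ B) (o : Option I) : prof lb A o ≤ prof lb B o :=
  Finset.card_le_card (Finset.filter_subset_filter _ h)

lemma prof_sdiff {A S : Finset V} (h : A ⊆ S) (o : Option I) :
    prof lb (S \ A) o = prof lb S o - prof lb A o := by
  have h1 := prof_union lb (A := A) (B := S \ A) Finset.disjoint_sdiff o
  rw [Finset.union_sdiff_of_subset h] at h1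
  omega

lemma exists_sub (S : Finset V) (a : Option I → ℕ) (h : ∀ o, a o ≤ prof lb S o) :
    ∃ A ⊆ S, ∀ o, prof lb A o = a o := by
  have h1 : ∀ o, ∃ B ⊆ S.filter (fun v => lb v = o), B.card = a o := fun o =>
    Finset.exists_subset_card_eq (h o)
  choose B hB hBc using h1
  refine ⟨Finset.univ.biUnion B, ?_, ?_⟩
  · intro v hv
    obtain ⟨o, -, ho⟩ := Finset.mem_biUnion.1 hv
    exact (Finset.mem_filter.1 (hB o ho)).1
  · intro o
    unfold prof
    rw [← hBc o]
    congr 1
    ext v
    rw [Finset.mem_filter, Finset.mem_biUnion]
    constructor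
    · rintro ⟨⟨o', -, ho'⟩, hv⟩
      have := (Finset.mem_filter.1 (hB o' ho')).2
      rw [← hv, this]
      exact ho'
    · intro hv
      exact ⟨⟨o, Finset.mem_univ _, hv⟩, (Finset.mem_filter.1 (hB o hv)).2⟩

end prof

section graph

variable {V I : Type*} [DecidableEq V] [DecidableEq I] [Fintype I] {lb : V → Option I}
  {G : SimpleGraph V}
  (hG : ∀ x y, G.Adj x y ↔ x ≠ y ∧ (lb x = none ∨ lb y = none ∨ lb x = lb y))

include hG in
lemma connected_of_prof {S : Finset V} (hn : 0 < ∑ o, prof lb S o)
    (h : 0 < prof lb S none ∨ ∀ i i', 0 < prof lb S (some i) → 0 < prof lb S (some i') → i = i') :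
    (G.induce (S : Set V)).Connected := by
  rw [sum_prof] at hn
  obtain ⟨v0, hv0⟩ := Finset.card_pos.1 hn
  by_cases h0 : 0 < prof lb S none
  · obtain ⟨w, hw⟩ := Finset.card_pos.1 h0
    rw [Finset.mem_filter] at hw
    have hadj : ∀ x : (S : Set V), x ≠ ⟨w, hw.1⟩ →
        (G.induce (S : Set V)).Adj x ⟨w, hw.1⟩ := by
      intro x hx
      show G.Adj x.1 w
      rw [hG]
      exact ⟨fun h' => hx (Subtype.ext h'), Or.inr (Or.inl hw.2)⟩
    rw [SimpleGraph.connected_iff]
    refine ⟨fun x y => ?_, ⟨⟨w, hw.1⟩⟩⟩
    have hr : ∀ x : (S : Set V), (G.induce (S : Set V)).Reachable x ⟨w, hw.1⟩ := by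
      intro x
      by_cases hx : x = ⟨w, hw.1⟩
      · rw [hx]
      · exact (hadj x hx).reachable
    exact (hr x).trans (hr y).symm
  · have h1 : ∀ i i', 0 < prof lb S (some i) → 0 < prof lb S (some i') → i = i' := by
      rcases h with h | h
      · exact absurd h h0
      · exact h
    have hne : ∀ x ∈ S, lb x ≠ none := by
      intro x hx hx0
      exact h0 (Finset.card_pos.2 ⟨x, Finset.mem_filter.2 ⟨hx, hx0⟩⟩)
    have hlab : ∀ x ∈ S, ∀ y ∈ S, lb x = lb y := by
      intro x hx y hy
      obtain ⟨i, hi⟩ := Option.ne_none_iff_exists'.1 (hne x hx)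
      obtain ⟨j, hj⟩ := Option.ne_none_iff_exists'.1 (hne y hy)
      rw [hi, hj, h1 i j (Finset.card_pos.2 ⟨x, Finset.mem_filter.2 ⟨hx, hi⟩⟩)
        (Finset.card_pos.2 ⟨y, Finset.mem_filter.2 ⟨hy, hj⟩⟩)]
    rw [SimpleGraph.connected_iff]
    refine ⟨fun x y => ?_, ⟨⟨v0, hv0⟩⟩⟩
    by_cases hxy : x = y
    · rw [hxy]
    · have : (G.induce (S : Set V)).Adj x y := by
        show G.Adj x.1 y.1
        rw [hG]
        exact ⟨fun h' => hxy (Subtype.ext h'), Or.inr (Or.inr (hlab x.1 x.2 y.1 y.2))⟩
      exact this.reachable

include hG in
/-- The positive direction: profiles decide. -/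
theorem RP_of_RPb {c : Option I → ℕ} (h : RPb c) :
    ∀ S : Finset V, (∀ o, prof lb S o = c o) → RP G S := by
  classical
  induction h with
  | one c h =>
    intro S hS
    have h1 : S.card = 1 := by
      rw [← sum_prof lb S, ← h]
      exact Finset.sum_congr rfl fun o _ => hS o
    obtain ⟨v, rfl⟩ := Finset.card_eq_one.1 h1
    exact RP.single v
  | step c hn hconn f hf h1 h2 ih1 ih2 =>
    intro S hS
    have hSc : S.card = ∑ o, c o := by
      rw [← sum_prof lb S]
      exact Finset.sum_congr rfl fun o _ => hS o
    have key : ∀ l : List ℕ, 2 ≤ l.length → (∀ a ∈ l, 0 < a) → l.sum = S.card →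
        ∃ A : ℕ → Finset V, IsPart S l A ∧ ∀ i < l.length, RP G (A i) := by
      intro l hl hpos hsum
      match l, hl, hpos, hsum with
      | t :: μ :: l', _, hpos, hsum =>
        have ht : 0 < t := hpos t (by simp)
        have hμ : 0 < μ := hpos μ (by simp)
        simp only [List.sum_cons] at hsum
        have htlt : t < ∑ o, c o := by omega
        obtain ⟨hle, hft⟩ := hf t ht htlt
        obtain ⟨A0, hA0, hA0p⟩ := exists_sub lb S (f t) (fun o => by rw [hS]; exact hle o)
        have hA0c : A0.card = t := by
          rw [← sum_prof lb A0, ← hft]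
          exact Finset.sum_congr rfl fun o _ => hA0p o
        have hrest : ∀ o, prof lb (S \ A0) o = c o - f t o := fun o => by
          rw [prof_sdiff lb hA0, hS, hA0p]
        have hRP0 : RP G A0 := ih1 t ht htlt A0 hA0p
        have hRP1 : RP G (S \ A0) := ih2 t ht htlt (S \ A0) hrest
        have hrc : (S \ A0).card = μ + l'.sum := by
          rw [Finset.card_sdiff_of_subset hA0, hA0c]
          omega
        -- partition of the rest
        have hB : ∃ B : ℕ → Finset V, IsPart (S \ A0) (μ :: l') B ∧
            ∀ i < (μ :: l').length, RP G (B i) := by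
          rcases l' with _ | ⟨ν, l''⟩
          · refine ⟨fun _ => S \ A0, ⟨?_, ?_, ?_⟩, ?_⟩
            · intro i hi
              have : i = 0 := by simpa using hi
              subst this
              simpa using hrc
            · intro i hi j hj hij
              have h3 : i = 0 := by simpa using hi
              have h4 : j = 0 := by simpa using hj
              omega
            · intro v
              constructor
              · intro hv
                exact ⟨0, by simp, hv⟩
              · rintro ⟨_, _, hv⟩
                exact hv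
            · intro i _
              exact hRP1
          · have hν : 0 < ν := hpos ν (by simp)
            generalize hT : S \ A0 = T at hRP1 hrc
            cases hRP1 with
            | single v =>
              exfalso
              simp at hrc
              omega
            | step T hc B hB1 hB2 =>
              have hlen : 2 ≤ (μ :: ν :: l'').length := by simp
              have hpos' : ∀ a ∈ μ :: ν :: l'', 0 < a := fun a ha => hpos a (by simp at ha ⊢; tauto)
              have hs : (μ :: ν :: l'').sum = T.card := by
                rw [hrc]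
                simp
              exact ⟨B (μ :: ν :: l''), hB1 _ hlen hpos' hs, hB2 _ hlen hpos' hs⟩
        obtain ⟨B, ⟨hB1, hB2, hB3⟩, hB4⟩ := hB
        refine ⟨fun i => match i with
          | 0 => A0
          | i + 1 => B i, ⟨?_, ?_, ?_⟩, ?_⟩
        · intro i hi
          match i with
          | 0 => simpa using hA0c
          | i + 1 =>
            have := hB1 i (by simpa using hi)
            simpa using this
        · intro i hi j hj hij
          have hdis : ∀ j, j < (μ :: l').length → Disjoint A0 (B j) := by
            intro j hj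
            rw [Finset.disjoint_left]
            intro v hv hv'
            have := (hB3 v).2 ⟨j, hj, hv'⟩
            exact (Finset.mem_sdiff.1 this).2 hv
          match i, j with
          | 0, 0 => exact absurd rfl hij
          | 0, j + 1 => exact hdis j (by simpa using hj)
          | i + 1, 0 => exact (hdis i (by simpa using hi)).symm
          | i + 1, j + 1 =>
            exact hB2 i (by simpa using hi) j (by simpa using hj) (by omega)
        · intro v
          constructor
          · intro hv
            by_cases hv0 : v ∈ A0
            · exact ⟨0, by simp, hv0⟩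
            · obtain ⟨i, hi, hvi⟩ := (hB3 v).1 (Finset.mem_sdiff.2 ⟨hv, hv0⟩)
              exact ⟨i + 1, by simpa using hi, hvi⟩
          · rintro ⟨i, hi, hv⟩
            match i with
            | 0 => exact hA0 hv
            | i + 1 =>
              exact (Finset.mem_sdiff.1 ((hB3 v).2 ⟨i, by simpa using hi, hv⟩)).1
        · intro i hi
          match i with
          | 0 => exact hRP0
          | i + 1 => exact hB4 i (by simpa using hi)
    choose A hA1 hA2 using key
    refine RP.step S (connected_of_prof hG ?_ ?_)
      (fun l => if h : 2 ≤ l.length ∧ (∀ a ∈ l, 0 < a) ∧ l.sum = S.card then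
        A l h.1 h.2.1 h.2.2 else fun _ => ∅) ?_ ?_
    · rw [sum_prof, hSc]
      exact hn
    · rw [hS]
      rcases hconn with h | h
      · exact Or.inl h
      · right
        intro i i' hi hi'
        rw [hS] at hi hi'
        exact h i i' hi hi'
    · intro l h3 h4 h5
      simp only [dif_pos (And.intro h3 (And.intro h4 h5))]
      exact hA1 l h3 h4 h5
    · intro l h3 h4 h5
      simp only [dif_pos (And.intro h3 (And.intro h4 h5))]
      exact hA2 l h3 h4 h5

include hG in
/-- The negative direction. -/
theorem RPb_of_RP {S : Finset V} (h : RP G S) : RPb (prof lb S) := by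
  classical
  induction h with
  | single v =>
    apply RPb.one
    rw [sum_prof]
    simp
  | step S hconn A hA h ih =>
    have hne : 0 < S.card := by
      rw [Finset.card_pos]
      obtain ⟨v⟩ := hconn.nonempty
      exact ⟨v.1, v.2⟩
    refine RPb.step _ ?_ ?_ (fun t => prof lb (A [t, S.card - t] 0)) ?_ ?_ ?_
    · rw [sum_prof]
      exact hne
    · by_contra hcon
      push Not at hcon
      obtain ⟨h0, i, i', hi, hi', hii⟩ := hcon
      have h0' : ∀ x ∈ S, lb x ≠ none := by
        intro x hx hx0
        have : 0 < prof lb S none := Finset.card_pos.2 ⟨x, Finset.mem_filter.2 ⟨hx, hx0⟩⟩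
        omega
      obtain ⟨x, hx⟩ := Finset.card_pos.1 hi
      obtain ⟨y, hy⟩ := Finset.card_pos.1 hi'
      rw [Finset.mem_filter] at hx hy
      have hr := hconn.preconnected ⟨x, hx.1⟩ ⟨y, hy.1⟩
      have hinv : ∀ (a b : (S : Set V)), (G.induce (S : Set V)).Reachable a b →
          lb a.1 = lb b.1 := by
        intro a b hab
        obtain ⟨p⟩ := hab
        induction p with
        | nil => rfl
        | @cons u v w huv p ih =>
          rw [← ih]
          have h5 : G.Adj u.1 v.1 := huv
          rw [hG] at h5
          rcases h5.2 with h6 | h6 | h6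
          · exact absurd h6 (h0' _ u.2)
          · exact absurd h6 (h0' _ v.2)
          · exact h6
      have h7 := hinv _ _ hr
      rw [hx.2, hy.2] at h7
      exact hii (Option.some_injective _ h7)
    all_goals
      intro t ht htlt
      rw [sum_prof] at htlt
      have hlen : 2 ≤ [t, S.card - t].length := by simp
      have hpos : ∀ a ∈ [t, S.card - t], 0 < a := by
        intro a ha
        simp at ha
        omega
      have hsum : [t, S.card - t].sum = S.card := by
        simp
        omega
      obtain ⟨hc, hd, hm⟩ := hA _ hlen hpos hsum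
      have hd01 := hd 0 (by simp) 1 (by simp) (by simp)
      have hsub : A [t, S.card - t] 0 ⊆ S := fun v hv => (hm v).2 ⟨0, by simp, hv⟩
    · refine ⟨fun o => prof_mono lb hsub o, ?_⟩
      rw [sum_prof]
      simpa using hc 0 (by simp)
    · exact ih _ hlen hpos hsum 0 (by simp)
    · have h3 := ih _ hlen hpos hsum 1 (by simp)
      have h4 : A [t, S.card - t] 1 = S \ A [t, S.card - t] 0 := by
        ext v
        rw [Finset.mem_sdiff]
        constructor
        · intro hv
          exact ⟨(hm v).2 ⟨1, by simp, hv⟩, fun hv' => Finset.disjoint_left.1 hd01 hv' hv⟩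
        · rintro ⟨hv, hv'⟩
          obtain ⟨i, hi, hvi⟩ := (hm v).1 hv
          have hi2 : i < 2 := by simpa using hi
          interval_cases i
          · exact absurd hvi hv'
          · exact hvi
      rw [h4] at h3
      have h5 : prof lb (S \ A [t, S.card - t] 0) =
          fun o => prof lb S o - prof lb (A [t, S.card - t] 0) o := by
        funext o
        exact prof_sdiff lb hsub o
      rw [h5] at h3
      exact h3

end graph

end Pool.Agent.R25.Rp
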