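import Mathlib

set_option autoImplicit false

namespace Pool.Agent.R25.Rp

/-- `A 0, ..., A (l.length - 1)` is a partition of the vertex set `S` into parts of the sizes
listed in `l`. -/
def IsPart {V : Type*} (S : Finset V) (l : List ℕ) (A : ℕ → Finset V) : Prop :=
  (∀ i < l.length, (A i).card = l.getD i 0) ∧
  (∀ i < l.length, ∀ j < l.length, i ≠ j → Disjoint (A i) (A j)) ∧
  ∀ v, v ∈ S ↔ ∃ i < l.length, v ∈ A i

/-- The subgraph of `G` induced on `S` is recursively partitionable: either `S` is a single vertex,
or `G[S]` is connected and for every integer partition `l` of `|S|` (a list of at least two positive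
integers with sum `|S|`; the partition with only one part gives nothing) there is a partition
`A l 0, A l 1, ...` of `S` with the sizes given by `l` such that every `G[A l i]` is
recursively partitionable. -/
inductive RP {V : Type*} (G : SimpleGraph V) : Finset V → Prop
  | single (v : V) : RP G {v}
  | step (S : Finset V) (hconn : (G.induce (S : Set V)).Connected)
      (A : List ℕ → ℕ → Finset V)
      (hA : ∀ l : List ℕ, 2 ≤ l.length → (∀ a ∈ l, 0 < a) → l.sum = S.card → IsPart S l (A l))
      (h : ∀ l : List ℕ, 2 ≤ l.length → (∀ a ∈ l, 0 < a) → l.sum = S.card →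
        ∀ i < l.length, RP G (A l i)) : RP G S

/-- The label of a vertex of a semistar: `none` for the central clique, `some i` for the `i`-th
branch. -/
def lab {b0 k : ℕ} {b : Fin k → ℕ} : (Fin b0 ⊕ (Σ i : Fin k, Fin (b i))) → Option (Fin k)
  | Sum.inl _ => none
  | Sum.inr p => some p.1

/-- The semistar `K_{b0}(b_1, ..., b_k)`: disjoint cliques on `b0`, `b_1`, ..., `b_k` vertices, and
all edges between the clique on `b0` vertices and the others. -/
def semistar (b0 : ℕ) {k : ℕ} (b : Fin k → ℕ) :
    SimpleGraph (Fin b0 ⊕ (Σ i : Fin k, Fin (b i))) where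
  Adj x y := x ≠ y ∧ (lab x = none ∨ lab y = none ∨ lab x = lab y)
  symm := ⟨fun _ _ ⟨h, h'⟩ => ⟨h.symm, by
    rcases h' with h' | h' | h'
    · exact Or.inr (Or.inl h')
    · exact Or.inl h'
    · exact Or.inr (Or.inr h'.symm)⟩⟩
  loopless := ⟨fun _ ⟨h, _⟩ => h rfl⟩

end Pool.Agent.R25.Rp
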