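import Pool.Agent.R25.Rp.Neg3

set_option autoImplicit false
set_option linter.unusedSectionVars false

namespace Pool.Agent.R25.Rp

/-- The branch sizes are in the table. -/
def InT (M : Multiset ℕ) : Prop := ∃ l ∈ Rl, M = (l : Multiset ℕ)

lemma RG_sums : (RG.all fun g => g.2.all fun r => r.sum == g.1) = true := by decide +kernel

lemma Rl_props : (Rl.all fun r => decide (r.length = 8) && decide (r.sum ≤ 56)) = true := by
  decide +kernel

lemma Rl_length : Rl.length = 112 := by decide +kernel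

lemma mem_Rl {l : List ℕ} (h : l ∈ Rl) : l.length = 8 ∧ l.sum ≤ 56 := by
  have h1 := List.all_eq_true.1 Rl_props l h
  simpa using h1

lemma inR_of {l' : List ℕ} (h : InT (l' : Multiset ℕ)) : inR l' = true := by
  obtain ⟨l, hl, hll⟩ := h
  have hp : l'.Perm l := Multiset.coe_eq_coe.1 hll
  unfold Rl at hl
  rw [List.mem_flatMap] at hl
  obtain ⟨g, hg, hlg⟩ := hl
  have h1 := List.all_eq_true.1 RG_sums g hg
  have h2 := List.all_eq_true.1 h1 l hlg
  unfold inR
  rw [List.any_eq_true]
  refine ⟨g, hg, ?_⟩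
  rw [Bool.and_eq_true]
  constructor
  · rw [hp.sum_eq]
    have h3 : l.sum = g.1 := by simpa using h2
    simp [h3]
  · rw [List.any_eq_true]
    exact ⟨l, hlg, List.isPerm_iff.2 hp⟩

lemma InT_of {l' : List ℕ} (h : inR l' = true) : InT (l' : Multiset ℕ) := by
  unfold inR at h
  rw [List.any_eq_true] at h
  obtain ⟨g, hg, h⟩ := h
  rw [Bool.and_eq_true, List.any_eq_true] at h
  obtain ⟨-, l, hl, hp⟩ := h
  refine ⟨l, ?_, Multiset.coe_eq_coe.2 (List.isPerm_iff.1 hp)⟩
  unfold Rl
  rw [List.mem_flatMap]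
  exact ⟨g, hg, hl⟩

/-- Representability of an order. -/
def repM (M : Multiset ℕ) (t : ℕ) : Prop :=
  t ∈ M ∨ 3 + M.sum - t ∈ M ∨
    (∃ a ∈ M, ∃ x, (x = t ∨ x = 3 + M.sum - t) ∧ 0 < x ∧ x < a ∧
      InT ((a - x) ::ₘ M.erase a)) ∨
    (∃ T ≤ M, T.card = 3 ∧ (1 + T.sum = t ∨ 1 + T.sum = 3 + M.sum - t) ∧
      ∀ d, 0 < d → condM T d)

lemma condL_of {T : List ℕ} {d : ℕ} (h : condM (T : Multiset ℕ) d) : condL T d = true := by
  unfold condM at h
  simp only [Multiset.sum_coe, Multiset.map_coe, Multiset.mem_coe] at h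
  unfold condL
  simp only [Bool.or_eq_true, Bool.and_eq_true, beq_iff_eq, decide_eq_true_eq, List.any_eq_true]
  rcases h with h | h | ⟨h1, x, hx, h2, h3⟩
  · exact Or.inl (Or.inl h)
  · exact Or.inl (Or.inr h)
  · exact Or.inr ⟨h1, x, hx, h2, h3⟩

lemma condA_of {T : List ℕ} (h : ∀ d, 0 < d → condM (T : Multiset ℕ) d) : condA T = true := by
  unfold condA
  rw [condL_of (h 2 (by norm_num)), condL_of (h 3 (by norm_num)), condL_of (h 4 (by norm_num)),
    condL_of (h 5 (by norm_num)), condL_of (h 6 (by norm_num)), condL_of (h 7 (by norm_num))]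
  rfl

lemma any2_of {p : ℕ → ℕ → Bool} {l : List ℕ} {a b : ℕ} (h : List.Sublist [a, b] l)
    (hp : p a b = true) : any2 p l = true := by
  induction l with
  | nil => cases h
  | cons x l ih =>
    unfold any2
    rw [Bool.or_eq_true]
    cases h with
    | cons _ h => exact Or.inr (ih h)
    | cons_cons _ h =>
      left
      rw [List.any_eq_true]
      exact ⟨b, List.singleton_sublist.1 h, hp⟩

lemma any3_of {p : ℕ → ℕ → ℕ → Bool} {l : List ℕ} {a b c : ℕ} (h : List.Sublist [a, b, c] l)
    (hp : p a b c = true) : any3 p l = true := by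
  induction l with
  | nil => cases h
  | cons x l ih =>
    unfold any3
    rw [Bool.or_eq_true]
    cases h with
    | cons _ h => exact Or.inr (ih h)
    | cons_cons _ h => exact Or.inl (any2_of h hp)

lemma sum_erase {M : Multiset ℕ} {a : ℕ} (h : a ∈ M) : a + (M.erase a).sum = M.sum :=
  Multiset.sum_erase h

lemma repB_of {l : List ℕ} {t : ℕ} (h : repM (l : Multiset ℕ) t) : repB l t = true := by
  unfold repM at h
  simp only [Multiset.sum_coe, Multiset.mem_coe] at h
  unfold repB
  simp only [Bool.or_eq_true, Bool.and_eq_true, decide_eq_true_eq, List.any_eq_true]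
  rcases h with h | h | ⟨a, ha, x, hx, hx0, hxa, hT⟩ | ⟨T, hT, hT3, hTs, hTc⟩
  · exact Or.inl (Or.inl (Or.inl (Or.inl (List.contains_iff_mem.2 h))))
  · exact Or.inl (Or.inl (Or.inl (Or.inr (List.contains_iff_mem.2 h))))
  · have he := sum_erase (M := (l : Multiset ℕ)) (a := a) ha
    rw [Multiset.sum_coe] at he
    obtain ⟨r, hr, hrr⟩ := hT
    have h56 := (mem_Rl hr).2
    have hs : (a - x) + ((l : Multiset ℕ).erase a).sum ≤ 56 := by
      have : ((a - x) ::ₘ (l : Multiset ℕ).erase a).sum = r.sum := by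
        rw [hrr, Multiset.sum_coe]
      rw [Multiset.sum_cons] at this
      omega
    have hin : inR ((a - x) :: l.erase a) = true := by
      apply inR_of
      refine ⟨r, hr, ?_⟩
      rw [← hrr, ← Multiset.cons_coe, Multiset.coe_erase]
    rcases hx with rfl | rfl
    · left; right
      exact ⟨by omega, a, ha, hxa, hin⟩
    · right
      exact ⟨by omega, a, ha, hxa, hin⟩
  · left; left; right
    obtain ⟨T', rfl⟩ := Quot.exists_rep T
    have hT' : (T' : Multiset ℕ) ≤ (l : Multiset ℕ) := hT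
    rw [Multiset.coe_le] at hT'
    obtain ⟨s, hs, hs'⟩ := hT'
    have hTs' : (Quot.mk _ T' : Multiset ℕ) = (s : Multiset ℕ) :=
      (Multiset.coe_eq_coe.2 hs).symm
    rw [hTs'] at hT3 hTs hTc
    rw [Multiset.coe_card] at hT3
    obtain ⟨a, b, c, rfl⟩ := List.length_eq_three.1 hT3
    apply any3_of hs'
    rw [Bool.and_eq_true, Bool.or_eq_true]
    refine ⟨?_, condA_of hTc⟩
    have h5 : ([a, b, c] : List ℕ).sum = a + (b + c) := by simp
    rw [Multiset.sum_coe, h5] at hTs
    simpa using hTs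

lemma good_use {l : List ℕ} {m : ℕ} (h : good l m = true)
    (hrep : ∀ t, 0 < t → t < 3 + (l : Multiset ℕ).sum → repM (l : Multiset ℕ) t) :
    InT (l : Multiset ℕ) := by
  unfold good at h
  by_cases hm : m = 0
  · subst hm
    exact InT_of (by simpa using h)
  · exfalso
    have h1 : (m == 0) = false := by simpa using hm
    rw [h1, cond_false, Bool.and_eq_true, decide_eq_true_eq] at h
    have h2 := repB_of (hrep m (Nat.pos_of_ne_zero hm) (by rw [Multiset.sum_coe]; exact h.1))
    rw [h2] at h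
    exact absurd h.2 (by decide)

end Pool.Agent.R25.Rp
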