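import Pool.Agent.R25.Rp.Fin

set_option autoImplicit false
set_option linter.unusedSectionVars false

namespace Pool.Agent.R25.Rp

lemma row_check (i : ℕ) (hi : i < 112) : ∃ h, chkRow (Rl.getD i []) h = true := by
  have key : ∀ (c : ℕ) (hint : List (List (List ℕ))),
      (List.range 14).all (fun r => chkRow (Rl.getD (14 * c + r) []) (hint.getD r [])) = true →
      i / 14 = c → ∃ h, chkRow (Rl.getD i []) h = true := by
    intro c hint h hc
    rw [List.all_eq_true] at h
    have h1 := h (i % 14) (List.mem_range.2 (Nat.mod_lt _ (by norm_num)))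
    have h2 : 14 * c + i % 14 = i := by
      rw [← hc]
      exact Nat.div_add_mod i 14
    rw [h2] at h1
    exact ⟨_, h1⟩
  have h8 : i / 14 < 8 := by omega
  rcases (show i / 14 = 0 ∨ i / 14 = 1 ∨ i / 14 = 2 ∨ i / 14 = 3 ∨ i / 14 = 4 ∨ i / 14 = 5 ∨
    i / 14 = 6 ∨ i / 14 = 7 by omega) with h | h | h | h | h | h | h | h
  · exact key 0 _ chk0 h
  · exact key 1 _ chk1 h
  · exact key 2 _ chk2 h
  · exact key 3 _ chk3 h
  · exact key 4 _ chk4 h
  · exact key 5 _ chk5 h
  · exact key 6 _ chk6 h
  · exact key 7 _ chk7 h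

lemma cand_check {l : List ℕ} (hl : l ∈ Rl) {y : ℕ} (hy : y ∈ l) {t : ℕ} (ht : 0 < t)
    (ht6 : t ≤ 6) : t ∈ (y + t) :: l.erase y ∨ ∃ m, good ((y + t) :: l.erase y) m = true := by
  obtain ⟨i, hi, rfl⟩ := List.mem_iff_getElem.1 hl
  have hi' : i < 112 := by
    rw [← Rl_length]
    exact hi
  obtain ⟨h, hh⟩ := row_check i hi'
  rw [List.getD_eq_getElem _ _ hi] at hh
  have hlen := (mem_Rl hl).1
  obtain ⟨j, hj, rfl⟩ := List.mem_iff_getElem.1 hy
  unfold chkRow at hh
  rw [List.all_eq_true] at hh
  have h1 := hh j (List.mem_range.2 (by omega))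
  rw [List.all_eq_true] at h1
  have h2 := h1 (t - 1) (List.mem_range.2 (by omega))
  rw [Nat.sub_add_cancel ht, List.getD_eq_getElem _ _ hj, Bool.or_eq_true] at h2
  rcases h2 with h2 | h2
  · exact Or.inl (List.contains_iff_mem.1 h2)
  · exact Or.inr ⟨_, h2⟩

lemma step_small {M : Multiset ℕ} (hcard : M.card = 8) (hpos : ∀ x ∈ M, 0 < x) {t : ℕ}
    (ht : 0 < t) (ht6 : t ≤ 6) (h : repM M t) :
    t ∈ M ∨ (∃ l ∈ Rl, ∃ y ∈ l, M = (((y + t) :: l.erase y : List ℕ) : Multiset ℕ)) ∨
      (t = 5 ∧ {1, 1, 2} ≤ M) := by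
  have hb : ∀ x ∈ M, x + 7 ≤ M.sum := fun x hx => by
    have := mem_bound hpos hx
    omega
  have hs := card_le_sum hpos
  rcases h with h | h | ⟨a, ha, x, hx, hx0, hxa, l, hl, hll⟩ | ⟨T, hT, hT3, hTs, hTc⟩
  · exact Or.inl h
  · have := hb _ h
    omega
  · have h1 := hb _ ha
    rcases hx with rfl | rfl
    · right; left
      have hmem : a - x ∈ l := by
        have : a - x ∈ (l : Multiset ℕ) := by
          rw [← hll]
          exact Multiset.mem_cons_self _ _
        exact this
      refine ⟨l, hl, a - x, hmem, ?_⟩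
      have h2 : a - x + x = a := by omega
      rw [h2, ← Multiset.cons_coe, ← Multiset.coe_erase, ← hll, Multiset.erase_cons_head,
        Multiset.cons_erase ha]
    · omega
  · rcases hTs with hTs | hTs
    · right; right
      have h5 := small_T hT3 (fun x hx => hpos x (Multiset.mem_of_le hT hx)) (by omega) hTc
      subst h5
      refine ⟨?_, hT⟩
      rw [← hTs]
      rfl
    · have h1 := sub_sum hT
      have h2 := sub_card_sum hpos hT
      omega

/-- Large members of the two-parameter families have an order without representation. -/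
lemma no_large {S : Multiset ℕ} {y z s : ℕ} (hS : S.card = 6) (hpos : ∀ x ∈ S, 0 < x)
    (hle : ∀ x ∈ S, x ≤ 6) (hs : S.sum = s) (hs17 : 17 ≤ s) (hy : 0 < y) (hyz : y ≤ z)
    (hlarge : (59 ≤ z ∧ y + s + 3 ≤ z) ∨ (s + 4 ≤ y ∧ 59 ≤ y + z))
    (h : ∀ t, 0 < t → t < 3 + (y ::ₘ z ::ₘ S).sum → repM (y ::ₘ z ::ₘ S) t) : False := by
  have hsum : (y ::ₘ z ::ₘ S).sum = y + (z + s) := by
    rw [Multiset.sum_cons, Multiset.sum_cons, hs]
  have hposM : ∀ x ∈ y ::ₘ z ::ₘ S, 0 < x := by
    intro x hx
    rw [Multiset.mem_cons, Multiset.mem_cons] at hx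
    rcases hx with rfl | rfl | hx
    · exact hy
    · omega
    · exact hpos x hx
  have hmem : ∀ x ∈ y ::ₘ z ::ₘ S, x = y ∨ x = z ∨ x ≤ 6 := by
    intro x hx
    rw [Multiset.mem_cons, Multiset.mem_cons] at hx
    rcases hx with rfl | rfl | hx
    · exact Or.inl rfl
    · exact Or.inr (Or.inl rfl)
    · exact Or.inr (Or.inr (hle x hx))
  -- sums of three elements
  have hTin : ∀ T : Multiset ℕ, T.card = 3 → (∀ x ∈ T, 0 < x) → ∀ x ∈ T, x + 2 ≤ T.sum := by
    intro T h3 hp x hx
    have := mem_bound hp hx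
    omega
  have hTnotz : ∀ T ≤ y ::ₘ z ::ₘ S, T.card = 3 → z ∉ T → T.sum + 4 ≤ y + s := by
    intro T hT h3 hz
    have h1 : T ≤ y ::ₘ S := by
      rw [Multiset.cons_swap] at hT
      exact (Multiset.le_cons_of_notMem hz).1 hT
    have h2 := T_bound (M := y ::ₘ S) (fun x hx => hposM x (by
      rw [Multiset.mem_cons] at hx ⊢
      rcases hx with hx | hx
      · exact Or.inl hx
      · exact Or.inr (Multiset.mem_cons_of_mem hx))) h1
    rw [Multiset.card_cons, hS, h3, Multiset.sum_cons, hs] at h2
    omega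
  have hTnoty : ∀ T ≤ y ::ₘ z ::ₘ S, T.card = 3 → y ∉ T → T.sum + 4 ≤ z + s := by
    intro T hT h3 hz
    have h1 : T ≤ z ::ₘ S := (Multiset.le_cons_of_notMem hz).1 hT
    have h2 := T_bound (M := z ::ₘ S) (fun x hx => hposM x (Multiset.mem_cons_of_mem hx)) h1
    rw [Multiset.card_cons, hS, h3, Multiset.sum_cons, hs] at h2
    omega
  have hTno : ∀ T ≤ y ::ₘ z ::ₘ S, T.card = 3 → y ∉ T → z ∉ T → T.sum + 3 ≤ s := by
    intro T hT h3 hy' hz
    have h1 : T ≤ z ::ₘ S := (Multiset.le_cons_of_notMem hy').1 hT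
    have h1' : T ≤ S := (Multiset.le_cons_of_notMem hz).1 h1
    have h2 := T_bound (M := S) hpos h1'
    rw [hS, h3, hs] at h2
    omega
  rcases hlarge with ⟨hz59, hyz2⟩ | ⟨hy4, hyz2⟩
  · rcases h (y + s + 2) (by omega) (by omega) with h | h | ⟨a, ha, x, hx, hx0, hxa, l, hl, hll⟩ |
      ⟨T, hT, hT3, hTs, hTc⟩
    · rcases hmem _ h with h | h | h <;> omega
    · rw [hsum] at h
      rcases hmem _ h with h | h | h <;> omega
    · have h56 := (mem_Rl hl).2
      have h2 := sum_erase ha
      have h3 : (a - x) + ((y ::ₘ z ::ₘ S).erase a).sum = l.sum := by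
        rw [← Multiset.sum_cons, hll, Multiset.sum_coe]
      rw [hsum] at h2 hx
      rcases hx with rfl | rfl
      · omega
      · rcases hmem _ ha with h | h | h <;> omega
    · rw [hsum] at hTs
      by_cases hzT : z ∈ T
      · have := hTin T hT3 (fun x hx => hposM x (Multiset.mem_of_le hT hx)) z hzT
        omega
      · have := hTnotz T hT hT3 hzT
        omega
  · rcases h (s + 2) (by omega) (by omega) with h | h | ⟨a, ha, x, hx, hx0, hxa, l, hl, hll⟩ |
      ⟨T, hT, hT3, hTs, hTc⟩
    · rcases hmem _ h with h | h | h <;> omega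
    · rw [hsum] at h
      rcases hmem _ h with h | h | h <;> omega
    · have h56 := (mem_Rl hl).2
      have h2 := sum_erase ha
      have h3 : (a - x) + ((y ::ₘ z ::ₘ S).erase a).sum = l.sum := by
        rw [← Multiset.sum_cons, hll, Multiset.sum_coe]
      rw [hsum] at h2 hx
      rcases hx with rfl | rfl
      · omega
      · rcases hmem _ ha with h | h | h <;> omega
    · rw [hsum] at hTs
      have hpT : ∀ x ∈ T, 0 < x := fun x hx => hposM x (Multiset.mem_of_le hT hx)
      by_cases hzT : z ∈ T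
      · have h1 := hTin T hT3 hpT z hzT
        by_cases hyT : y ∈ T
        · -- both `y` and `z` in `T`
          by_cases hyz' : y = z
          · -- then `T.sum ≥ y + 2` anyway; use the complement
            rcases hTs with hTs | hTs
            · omega
            · have h4 : y ::ₘ z ::ₘ 0 ≤ T ∨ T ≤ z ::ₘ S := by
                by_cases h2 : 2 ≤ Multiset.count z T
                · left
                  rw [hyz']
                  have : Multiset.replicate 2 z ≤ T := Multiset.le_count_iff_replicate_le.1 h2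
                  simpa [Multiset.replicate_succ] using this
                · right
                  rw [Multiset.le_iff_count]
                  intro w
                  have h5 := Multiset.le_iff_count.1 hT w
                  rw [Multiset.count_cons, Multiset.count_cons] at h5
                  rw [Multiset.count_cons]
                  by_cases hw : w = z
                  · subst hw
                    simp only [if_true]
                    omega
                  · rw [if_neg hw, if_neg (by rw [hyz']; exact hw)] at h5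
                    rw [if_neg hw]
                    omega
              rcases h4 with h4 | h4
              · obtain ⟨U, rfl⟩ := Multiset.le_iff_exists_add.1 h4
                have hU : U.card = 1 := by
                  simp only [Multiset.card_add, Multiset.card_cons, Multiset.card_zero] at hT3
                  omega
                obtain ⟨u, rfl⟩ := Multiset.card_eq_one.1 hU
                have hu : 0 < u := hpT u (by simp)
                simp only [Multiset.sum_add, Multiset.sum_cons, Multiset.sum_zero,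
                  Multiset.sum_singleton] at hTs
                omega
              · have h2 := T_bound (M := z ::ₘ S)
                  (fun x hx => hposM x (Multiset.mem_cons_of_mem hx)) h4
                rw [Multiset.card_cons, hS, hT3, Multiset.sum_cons, hs] at h2
                omega
          · obtain ⟨U, rfl⟩ := Multiset.exists_cons_of_mem hyT
            have hzU : z ∈ U := by
              rw [Multiset.mem_cons] at hzT
              rcases hzT with h | h
              · exact absurd h.symm hyz'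
              · exact h
            obtain ⟨U', rfl⟩ := Multiset.exists_cons_of_mem hzU
            have hU : U'.card = 1 := by
              simp only [Multiset.card_cons] at hT3
              omega
            obtain ⟨u, rfl⟩ := Multiset.card_eq_one.1 hU
            have hu : 0 < u := hpT u (by simp)
            simp only [Multiset.sum_cons, Multiset.sum_singleton] at hTs
            omega
        · have := hTnoty T hT hT3 hyT
          omega
      · by_cases hyT : y ∈ T
        · have h1 := hTin T hT3 hpT y hyT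
          have := hTnotz T hT hT3 hzT
          omega
        · have := hTno T hT hT3 hyT hzT
          omega

lemma fam_check0 {y z : ℕ} (hy : 0 < y) (hy29 : y ≤ 29) (hyz : y ≤ z) (hz : z ≤ 58) :
    ∃ m, good [y, z, 1, 1, 2, 3, 4, 6] m = true := by
  have key : ∀ (k num : ℕ) (fam : List (List ℕ)),
      (List.range num).all (fun r => (List.range (58 - (k + r))).all fun j =>
        good [(k + 1) + r, (k + 1) + r + j, 1, 1, 2, 3, 4, 6] ((fam.getD (k + r) []).getD j 0)) =
        true → k + 1 ≤ y → y < k + 1 + num → ∃ m, good [y, z, 1, 1, 2, 3, 4, 6] m = true := by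
    intro k num fam h h1 h2
    rw [List.all_eq_true] at h
    have h3 := h (y - (k + 1)) (List.mem_range.2 (by omega))
    rw [List.all_eq_true] at h3
    have h4 := h3 (z - y) (List.mem_range.2 (by omega))
    have h5 : k + 1 + (y - (k + 1)) = y := by omega
    have h6 : y + (z - y) = z := by omega
    rw [h5, h6] at h4
    exact ⟨_, h4⟩
  rcases (show (y < 6) ∨ (6 ≤ y ∧ y < 11) ∨ (11 ≤ y ∧ y < 16) ∨ (16 ≤ y ∧ y < 21) ∨
    (21 ≤ y ∧ y < 26) ∨ (26 ≤ y ∧ y < 30) by omega) with h | ⟨h, h'⟩ | ⟨h, h'⟩ | ⟨h, h'⟩ |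
    ⟨h, h'⟩ | ⟨h, h'⟩
  · exact key 0 5 _ chkF0_0 (by omega) h
  · exact key 5 5 _ chkF0_1 (by omega) h'
  · exact key 10 5 _ chkF0_2 (by omega) h'
  · exact key 15 5 _ chkF0_3 (by omega) h'
  · exact key 20 5 _ chkF0_4 (by omega) h'
  · exact key 25 4 _ chkF0_5 (by omega) h'

lemma fam_check1 {y z : ℕ} (hy : 0 < y) (hy29 : y ≤ 29) (hyz : y ≤ z) (hz : z ≤ 58) :
    ∃ m, good [y, z, 1, 2, 3, 4, 5, 6] m = true := by
  have key : ∀ (k num : ℕ) (fam : List (List ℕ)),
      (List.range num).all (fun r => (List.range (58 - (k + r))).all fun j =>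
        good [(k + 1) + r, (k + 1) + r + j, 1, 2, 3, 4, 5, 6] ((fam.getD (k + r) []).getD j 0)) =
        true → k + 1 ≤ y → y < k + 1 + num → ∃ m, good [y, z, 1, 2, 3, 4, 5, 6] m = true := by
    intro k num fam h h1 h2
    rw [List.all_eq_true] at h
    have h3 := h (y - (k + 1)) (List.mem_range.2 (by omega))
    rw [List.all_eq_true] at h3
    have h4 := h3 (z - y) (List.mem_range.2 (by omega))
    have h5 : k + 1 + (y - (k + 1)) = y := by omega
    have h6 : y + (z - y) = z := by omega
    rw [h5, h6] at h4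
    exact ⟨_, h4⟩
  rcases (show (y < 6) ∨ (6 ≤ y ∧ y < 11) ∨ (11 ≤ y ∧ y < 16) ∨ (16 ≤ y ∧ y < 21) ∨
    (21 ≤ y ∧ y < 26) ∨ (26 ≤ y ∧ y < 30) by omega) with h | ⟨h, h'⟩ | ⟨h, h'⟩ | ⟨h, h'⟩ |
    ⟨h, h'⟩ | ⟨h, h'⟩
  · exact key 0 5 _ chkF1_0 (by omega) h
  · exact key 5 5 _ chkF1_1 (by omega) h'
  · exact key 10 5 _ chkF1_2 (by omega) h'
  · exact key 15 5 _ chkF1_3 (by omega) h'
  · exact key 20 5 _ chkF1_4 (by omega) h'
  · exact key 25 4 _ chkF1_5 (by omega) h'

/-- Two-parameter families. -/
lemma fam_case {M : Multiset ℕ} {y z : ℕ} {L : List ℕ} (hy : 0 < y) (hyz : y ≤ z)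
    (hL : L = [1, 1, 2, 3, 4, 6] ∨ L = [1, 2, 3, 4, 5, 6])
    (hM : M = y ::ₘ z ::ₘ (L : Multiset ℕ))
    (hrep : ∀ t, 0 < t → t < 3 + M.sum → repM M t) : InT M := by
  have hM' : M = ((y :: z :: L : List ℕ) : Multiset ℕ) := hM
  by_cases hlarge : (59 ≤ z ∧ y + L.sum + 3 ≤ z) ∨ (L.sum + 4 ≤ y ∧ 59 ≤ y + z)
  · exfalso
    subst hM
    refine no_large (S := (L : Multiset ℕ)) (s := L.sum) ?_ ?_ ?_ (Multiset.sum_coe L) ?_ hy hyz
      hlarge hrep
    · rcases hL with rfl | rfl <;> rfl
    · rcases hL with rfl | rfl <;> decide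
    · rcases hL with rfl | rfl <;> decide
    · rcases hL with rfl | rfl <;> decide
  · push Not at hlarge
    rcases hL with rfl | rfl
    · have hs : ([1, 1, 2, 3, 4, 6] : List ℕ).sum = 17 := rfl
      rw [hs] at hlarge
      obtain ⟨m, hm⟩ := fam_check0 (z := z) hy (by omega) hyz (by omega)
      rw [hM'] at hrep ⊢
      exact good_use hm hrep
    · have hs : ([1, 2, 3, 4, 5, 6] : List ℕ).sum = 21 := rfl
      rw [hs] at hlarge
      obtain ⟨m, hm⟩ := fam_check1 (z := z) hy (by omega) hyz (by omega)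
      rw [hM'] at hrep ⊢
      exact good_use hm hrep

lemma arith {M : Multiset ℕ} (hcard : M.card = 8) (hpos : ∀ x ∈ M, 0 < x)
    (hrep : ∀ t, 0 < t → t < 3 + M.sum → repM M t) : InT M := by
  by_contra hcon
  have hs := card_le_sum hpos
  have key : ∀ t, 0 < t → t ≤ 6 → t ∈ M ∨ (t = 5 ∧ {1, 1, 2} ≤ M) := by
    intro t ht ht6
    rcases step_small hcard hpos ht ht6 (hrep t ht (by omega)) with h | ⟨l, hl, y, hy, hM⟩ | h
    · exact Or.inl h
    · rcases cand_check hl hy ht ht6 with h | ⟨m, hm⟩
      · left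
        rw [hM]
        exact h
      · exfalso
        apply hcon
        rw [hM] at hrep ⊢
        exact good_use hm hrep
    · exact Or.inr h
  have h1 : 1 ∈ M := (key 1 (by omega) (by omega)).resolve_right (by omega)
  have h2 : 2 ∈ M := (key 2 (by omega) (by omega)).resolve_right (by omega)
  have h3 : 3 ∈ M := (key 3 (by omega) (by omega)).resolve_right (by omega)
  have h4 : 4 ∈ M := (key 4 (by omega) (by omega)).resolve_right (by omega)
  have h6 : 6 ∈ M := (key 6 (by omega) (by omega)).resolve_right (by omega)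
  have h5 := key 5 (by omega) (by omega)
  obtain ⟨M1, rfl⟩ := Multiset.exists_cons_of_mem h1
  have h2' : 2 ∈ M1 := by simpa using h2
  obtain ⟨M2, rfl⟩ := Multiset.exists_cons_of_mem h2'
  have h3' : 3 ∈ M2 := by simpa using h3
  obtain ⟨M3, rfl⟩ := Multiset.exists_cons_of_mem h3'
  have h4' : 4 ∈ M3 := by simpa using h4
  obtain ⟨M4, rfl⟩ := Multiset.exists_cons_of_mem h4'
  have h6' : 6 ∈ M4 := by simpa using h6
  obtain ⟨M5, rfl⟩ := Multiset.exists_cons_of_mem h6'
  simp only [Multiset.card_cons] at hcard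
  have hw : 5 ∈ M5 ∨ 1 ∈ M5 := by
    rcases h5 with h5 | ⟨-, h5⟩
    · left
      simpa using h5
    · right
      have h7 := Multiset.count_le_of_le 1 h5
      have h9 : Multiset.count 1 ({1, 1, 2} : Multiset ℕ) = 2 := by decide
      rw [h9, Multiset.count_cons_self, Multiset.count_cons_of_ne (by norm_num),
        Multiset.count_cons_of_ne (by norm_num), Multiset.count_cons_of_ne (by norm_num),
        Multiset.count_cons_of_ne (by norm_num)] at h7
      exact Multiset.count_pos.1 (by omega)
  have fin : ∀ (w y z : ℕ), M5 = w ::ₘ y ::ₘ {z} → w = 5 ∨ w = 1 → False := by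
    intro w y z hM5 hw
    have hyp : 0 < y := hpos y (by rw [hM5]; simp)
    have hzp : 0 < z := hpos z (by rw [hM5]; simp)
    apply hcon
    have hL : ∃ L : List ℕ, (L = [1, 1, 2, 3, 4, 6] ∨ L = [1, 2, 3, 4, 5, 6]) ∧
        (1 ::ₘ 2 ::ₘ 3 ::ₘ 4 ::ₘ 6 ::ₘ {w} : Multiset ℕ) = (L : Multiset ℕ) := by
      rcases hw with rfl | rfl
      · exact ⟨[1, 2, 3, 4, 5, 6], Or.inr rfl, by decide⟩
      · exact ⟨[1, 1, 2, 3, 4, 6], Or.inl rfl, by decide⟩
    obtain ⟨L, hL, hLe⟩ := hL
    have hM : 1 ::ₘ 2 ::ₘ 3 ::ₘ 4 ::ₘ 6 ::ₘ M5 = y ::ₘ z ::ₘ (L : Multiset ℕ) := by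
      rw [← hLe, hM5]
      ext a
      simp only [Multiset.count_cons, Multiset.count_singleton]
      omega
    rcases Nat.le_total y z with h | h
    · exact fam_case hyp h hL hM hrep
    · exact fam_case hzp h hL (by rw [hM, Multiset.cons_swap]) hrep
  rcases hw with hw | hw
  · obtain ⟨M6, rfl⟩ := Multiset.exists_cons_of_mem hw
    simp only [Multiset.card_cons] at hcard
    obtain ⟨y, z, rfl⟩ := Multiset.card_eq_two.1 (show M6.card = 2 by omega)
    exact fin 5 y z rfl (Or.inl rfl)
  · obtain ⟨M6, rfl⟩ := Multiset.exists_cons_of_mem hw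
    simp only [Multiset.card_cons] at hcard
    obtain ⟨y, z, rfl⟩ := Multiset.card_eq_two.1 (show M6.card = 2 by omega)
    exact fin 1 y z rfl (Or.inr rfl)

variable {I : Type*} [Fintype I] [DecidableEq I]

/-- The branch sizes of a recursively partitionable `K_3` with eight branches are in the table. -/
theorem inT_of_RPb (N : ℕ) : ∀ c : Option I → ℕ, ∑ o, c o = N → RPb c → c none = 3 →
    nz c = 8 → InT (br c) := by
  induction N using Nat.strong_induction_on with
  | _ N ih =>
    intro c hN hc h3 h8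
    apply arith (by rw [card_br, h8]) (pos_br c)
    intro t ht htN
    rcases rep_three hc h3 h8 ht htN with h | h | ⟨a, ha, x, hx, hx0, hxa, c', hc', h3', h8', hlt, hbr⟩ |
      h
    · exact Or.inl h
    · exact Or.inr (Or.inl h)
    · right; right; left
      refine ⟨a, ha, x, hx, hx0, hxa, ?_⟩
      rw [← hbr]
      exact ih _ (by omega) c' rfl hc' h3' h8'
    · exact Or.inr (Or.inr (Or.inr h))

end Pool.Agent.R25.Rp
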