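import Pool.Agent.R25.Rp.Basic

set_option autoImplicit false
set_option linter.unusedSectionVars false

namespace Pool.Agent.R25.Rp

open Finset

variable {I : Type*} [Fintype I] [DecidableEq I]

lemma RPb.split {c : Option I → ℕ} (h : RPb c) {t : ℕ} (ht : 0 < t) (ht' : t < ∑ o, c o) :
    ∃ a : Option I → ℕ, (∀ o, a o ≤ c o) ∧ ∑ o, a o = t ∧ RPb a ∧ RPb (fun o => c o - a o) := by
  cases h with
  | one c h => omega
  | step c hn hconn f hf h1 h2 =>
    exact ⟨f t, (hf t ht ht').1, (hf t ht ht').2, h1 t ht ht', h2 t ht ht'⟩

lemma RPb.pos {c : Option I → ℕ} (h : RPb c) : 0 < ∑ o, c o := by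
  cases h with
  | one c h => omega
  | step c hn hconn f hf h1 h2 => exact hn

lemma sum_opt (c : Option I → ℕ) : ∑ o, c o = c none + ∑ i, c (some i) := by
  rw [Fintype.sum_option]

lemma RPb.single {c : Option I → ℕ} (h : RPb c) (h0 : c none = 0) {i i' : I}
    (hi : 0 < c (some i)) (hi' : 0 < c (some i')) : i = i' := by
  cases h with
  | one c h =>
    by_contra hne
    rw [sum_opt, h0] at h
    have h1 := Finset.add_le_sum (f := fun i => c (some i)) (fun _ _ => Nat.zero_le _)
      (Finset.mem_univ i) (Finset.mem_univ i') hne
    omega
  | step c hn hconn f hf h1 h2 =>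
    rcases hconn with h3 | h3
    · omega
    · exact h3 i i' hi hi'

/-- Removing a clique: the complement of a part without central vertices. -/
lemma cut_form {c a : Option I → ℕ} (ha : ∀ o, a o ≤ c o) (hRP : RPb a) (h0 : a none = 0) :
    ∃ i, ∑ o, a o ≤ c (some i) ∧
      (fun o => c o - a o) = Function.update c (some i) (c (some i) - ∑ o, a o) := by
  have hpos := hRP.pos
  have hs := sum_opt a
  rw [h0, zero_add] at hs
  have hne : ∃ i, 0 < a (some i) := by
    by_contra hcon
    push Not at hcon
    have : ∑ i, a (some i) = 0 := Finset.sum_eq_zero fun i _ => by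
      have := hcon i
      omega
    omega
  obtain ⟨i, hi⟩ := hne
  have hsum : ∑ o, a o = a (some i) := by
    rw [hs]
    apply Finset.sum_eq_single i
    · intro k _ hk
      by_contra hk0
      exact hk (hRP.single h0 (Nat.pos_of_ne_zero hk0) hi)
    · intro h
      exact absurd (Finset.mem_univ i) h
  refine ⟨i, ?_, ?_⟩
  · rw [hsum]
    exact ha _
  · funext o
    rcases o with _ | k
    · rw [Function.update_of_ne (by simp), h0]
      omega
    · by_cases hk : k = i
      · subst hk
        rw [Function.update_self, hsum]
      · rw [Function.update_of_ne (by simpa using hk)]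
        have : a (some k) = 0 := by
          by_contra hk0
          exact hk (hRP.single h0 (Nat.pos_of_ne_zero hk0) hi)
        omega

lemma sum_sub {c a : Option I → ℕ} (ha : ∀ o, a o ≤ c o) :
    ∑ o, (c o - a o) = ∑ o, c o - ∑ o, a o := by
  have : ∑ o, (c o - a o) + ∑ o, a o = ∑ o, c o := by
    rw [← Finset.sum_add_distrib]
    exact Finset.sum_congr rfl fun o _ => Nat.sub_add_cancel (ha o)
  omega

lemma sum_update {c : Option I → ℕ} {i : I} {x : ℕ} (hx : x ≤ c (some i)) :
    ∑ o, Function.update c (some i) (c (some i) - x) o = ∑ o, c o - x := by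
  rw [Finset.sum_update_of_mem (Finset.mem_univ _)]
  have : ∑ o, c o = c (some i) + ∑ o ∈ Finset.univ \ {some i}, c o := by
    rw [← Finset.sum_sdiff (Finset.subset_univ {some i}), Finset.sum_singleton, add_comm]
  omega

/-- The two possible kinds of splits: a clique is cut off, or both parts contain central
vertices. -/
lemma RPb.cases_split {c : Option I → ℕ} (h : RPb c) {t : ℕ} (ht : 0 < t) (ht' : t < ∑ o, c o) :
    (∃ i x, (x = t ∨ x = ∑ o, c o - t) ∧ 0 < x ∧ x ≤ c (some i) ∧
      RPb (Function.update c (some i) (c (some i) - x))) ∨
    (∃ a : Option I → ℕ, (∀ o, a o ≤ c o) ∧ ∑ o, a o = t ∧ RPb a ∧ RPb (fun o => c o - a o) ∧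
      0 < a none ∧ a none < c none) := by
  obtain ⟨a, ha, hat, h1, h2⟩ := h.split ht ht'
  by_cases h0 : a none = 0
  · left
    obtain ⟨i, hi, hi'⟩ := cut_form ha h1 h0
    refine ⟨i, t, Or.inl rfl, ht, by rwa [hat] at hi, ?_⟩
    rw [hi', hat] at h2
    exact h2
  by_cases h0' : c none - a none = 0
  · left
    have hb : ∀ o, (fun o => c o - a o) o ≤ c o := fun o => Nat.sub_le _ _
    obtain ⟨i, hi, hi'⟩ := cut_form hb h2 h0'
    have hs : ∑ o, (c o - a o) = ∑ o, c o - t := by rw [sum_sub ha, hat]
    have haa : (fun o => c o - (fun o => c o - a o) o) = a := by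
      funext o
      have := ha o
      simp only
      omega
    rw [haa] at hi'
    simp only [hs] at hi hi'
    refine ⟨i, ∑ o, c o - t, Or.inr rfl, by omega, hi, ?_⟩
    rw [← hi']
    exact h1
  · right
    exact ⟨a, ha, hat, h1, h2, by omega, by have := ha none; omega⟩

/-- Number of nonempty branches. -/
def nz (c : Option I → ℕ) : ℕ := (Finset.univ.filter fun i => 0 < c (some i)).card

lemma nz_update_lt {c : Option I → ℕ} {i : I} {x : ℕ} (hx : x < c (some i)) :
    nz (Function.update c (some i) (c (some i) - x)) = nz c := by
  unfold nz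
  congr 1
  ext k
  simp only [Finset.mem_filter, Finset.mem_univ, true_and]
  by_cases hk : k = i
  · subst hk
    rw [Function.update_self]
    omega
  · rw [Function.update_of_ne (by simpa using hk)]

lemma nz_update_eq {c : Option I → ℕ} {i : I} (hx : 0 < c (some i)) :
    nz (Function.update c (some i) (c (some i) - c (some i))) + 1 = nz c := by
  unfold nz
  have : (Finset.univ.filter fun k => 0 < c (some k)) =
      insert i (Finset.univ.filter fun k =>
        0 < Function.update c (some i) (c (some i) - c (some i)) (some k)) := by
    ext k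
    simp only [Finset.mem_filter, Finset.mem_univ, true_and, Finset.mem_insert]
    by_cases hk : k = i
    · subst hk
      simp [hx]
    · rw [Function.update_of_ne (by simpa using hk)]
      simp [hk]
  rw [this, Finset.card_insert_of_notMem]
  simp

lemma nz_le_add {c a : Option I → ℕ} :
    nz c ≤ nz a + nz (fun o => c o - a o) := by
  unfold nz
  refine le_trans (Finset.card_le_card ?_) (Finset.card_union_le _ _)
  intro k hk
  simp only [Finset.mem_union, Finset.mem_filter, Finset.mem_univ, true_and] at hk ⊢
  omega

/-- If the supports have minimal total size then every branch goes to one side. -/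
lemma whole {c a : Option I → ℕ} (ha : ∀ o, a o ≤ c o)
    (h : nz a + nz (fun o => c o - a o) ≤ nz c) (i : I) :
    a (some i) = 0 ∨ a (some i) = c (some i) := by
  unfold nz at h
  rw [← Finset.card_union_add_card_inter] at h
  beta_reduce at h
  have h1 : (Finset.univ.filter fun i => 0 < c (some i)).card ≤
      ((Finset.univ.filter fun i => 0 < a (some i)) ∪
        (Finset.univ.filter fun i => 0 < c (some i) - a (some i))).card := by
    apply Finset.card_le_card
    intro k hk
    simp only [Finset.mem_union, Finset.mem_filter, Finset.mem_univ, true_and] at hk ⊢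
    omega
  have h2 : ((Finset.univ.filter fun i => 0 < a (some i)) ∩
        (Finset.univ.filter fun i => 0 < c (some i) - a (some i))).card = 0 := by
    omega
  rw [Finset.card_eq_zero] at h2
  by_contra hcon
  push Not at hcon
  have h3 : i ∈ (Finset.univ.filter fun i => 0 < a (some i)) ∩
        (Finset.univ.filter fun i => 0 < c (some i) - a (some i)) := by
    simp only [Finset.mem_inter, Finset.mem_filter, Finset.mem_univ, true_and]
    have := ha (some i)
    omega
  rw [h2] at h3
  exact absurd h3 (Finset.notMem_empty _)

/-- The multiset of the sizes of the nonempty branches. -/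
def br (c : Option I → ℕ) : Multiset ℕ :=
  (Finset.univ.filter fun i => 0 < c (some i)).val.map fun i => c (some i)

lemma card_br (c : Option I → ℕ) : (br c).card = nz c := by
  unfold br nz
  rw [Multiset.card_map, Finset.card_def]

lemma sum_br (c : Option I → ℕ) : (br c).sum = ∑ i, c (some i) := by
  unfold br
  rw [← Finset.sum_filter_add_sum_filter_not Finset.univ (fun i => 0 < c (some i))]
  have : ∑ i ∈ Finset.univ.filter (fun i => ¬ 0 < c (some i)), c (some i) = 0 := by
    apply Finset.sum_eq_zero
    intro i hi
    have := (Finset.mem_filter.1 hi).2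
    omega
  rw [this, add_zero]
  rfl

lemma pos_br (c : Option I → ℕ) : ∀ x ∈ br c, 0 < x := by
  intro x hx
  unfold br at hx
  rw [Multiset.mem_map] at hx
  obtain ⟨i, hi, rfl⟩ := hx
  exact (Finset.mem_filter.1 (Finset.mem_def.2 hi)).2

lemma mem_br {c : Option I → ℕ} {i : I} (h : 0 < c (some i)) : c (some i) ∈ br c := by
  unfold br
  rw [Multiset.mem_map]
  exact ⟨i, Finset.mem_def.1 (Finset.mem_filter.2 ⟨Finset.mem_univ _, h⟩), rfl⟩

/-- Branch sizes after cutting part of a branch. -/
lemma br_update_lt {c : Option I → ℕ} {i : I} {x : ℕ} (hx : x < c (some i)) :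
    br (Function.update c (some i) (c (some i) - x)) =
      (c (some i) - x) ::ₘ (br c).erase (c (some i)) := by
  have hfil : (Finset.univ.filter fun k =>
      0 < Function.update c (some i) (c (some i) - x) (some k)) =
      Finset.univ.filter fun k => 0 < c (some k) := by
    ext k
    simp only [Finset.mem_filter, Finset.mem_univ, true_and]
    by_cases hk : k = i
    · subst hk
      rw [Function.update_self]
      omega
    · rw [Function.update_of_ne (by simpa using hk)]
  unfold br
  rw [hfil]
  have hi : i ∈ Finset.univ.filter fun k => 0 < c (some k) :=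
    Finset.mem_filter.2 ⟨Finset.mem_univ _, by omega⟩
  rw [← Finset.insert_erase hi, Finset.insert_val_of_notMem (Finset.notMem_erase _ _),
    Multiset.map_cons, Multiset.map_cons, Function.update_self, Multiset.erase_cons_head]
  congr 1
  apply Multiset.map_congr rfl
  intro k hk
  rw [Function.update_of_ne]
  have := (Finset.mem_erase.1 (Finset.mem_def.2 hk)).1
  simpa using this

/-- If every branch goes to one side, the branch sizes of the part are a sub-multiset. -/
lemma br_whole {c a : Option I → ℕ} (ha : ∀ i, a (some i) = 0 ∨ a (some i) = c (some i)) :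
    br a ≤ br c ∧ br c - br a = br (fun o => c o - a o) := by
  have h1 : br a = (Finset.univ.filter fun i => 0 < a (some i)).val.map fun i => c (some i) := by
    unfold br
    apply Multiset.map_congr rfl
    intro i hi
    have := (Finset.mem_filter.1 (Finset.mem_def.2 hi)).2
    rcases ha i with h | h
    · omega
    · exact h
  have h2 : br (fun o => c o - a o) =
      (Finset.univ.filter fun i => 0 < c (some i) - a (some i)).val.map fun i => c (some i) := by
    unfold br
    apply Multiset.map_congr rfl
    intro i hi
    have h3 : 0 < c (some i) - a (some i) := (Finset.mem_filter.1 (Finset.mem_def.2 hi)).2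
    rcases ha i with h | h
    · simp [h]
    · omega
  have h3 : (Finset.univ.filter fun i => 0 < c (some i)).val =
      (Finset.univ.filter fun i => 0 < a (some i)).val +
      (Finset.univ.filter fun i => 0 < c (some i) - a (some i)).val := by
    have hd : Disjoint (Finset.univ.filter fun i => 0 < a (some i))
        (Finset.univ.filter fun i => 0 < c (some i) - a (some i)) := by
      rw [Finset.disjoint_filter]
      intro i _ hi
      rcases ha i with h | h <;> omega
    have hu : (Finset.univ.filter fun i => 0 < c (some i)) =
        Finset.disjUnion _ _ hd := by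
      ext i
      rw [Finset.mem_disjUnion]
      simp only [Finset.mem_filter, Finset.mem_univ, true_and]
      rcases ha i with h | h <;> omega
    rw [hu]
    rfl
  have h4 : br c = br a + br (fun o => c o - a o) := by
    rw [h1, h2, ← Multiset.map_add, ← h3]
    rfl
  refine ⟨?_, ?_⟩
  · rw [h4]
    exact Multiset.le_add_right _ _
  · rw [h4]
    exact add_tsub_cancel_left _ _

end Pool.Agent.R25.Rp
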