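import Pool.Agent.R25.Rp.Neg

set_option autoImplicit false
set_option linter.unusedSectionVars false

namespace Pool.Agent.R25.Rp

open Finset

variable {I : Type*} [Fintype I] [DecidableEq I]

/-- A necessary condition for `K_1(T)` to have a partition into connected parts of sizes
`d, ..., d, r`. -/
def condM (T : Multiset ℕ) (d : ℕ) : Prop :=
  ((1 + T.sum) % d = 0 ∧ (T.map (· % d)).sum = d - 1) ∨
  (0 < (1 + T.sum) % d ∧ (T.map (· % d)).sum = (1 + T.sum) % d - 1) ∨
  (0 < (1 + T.sum) % d ∧ ∃ x ∈ T, (1 + T.sum) % d ≤ x ∧
    (x - (1 + T.sum) % d) % d + (T.map (· % d)).sum = d - 1 + x % d)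

lemma sum_mod_br (c : Option I → ℕ) (d : ℕ) :
    ((br c).map (· % d)).sum = ∑ i, c (some i) % d := by
  unfold br
  rw [Multiset.map_map, ← Finset.sum_filter_add_sum_filter_not Finset.univ
    (fun i => 0 < c (some i))]
  have : ∑ i ∈ Finset.univ.filter (fun i => ¬ 0 < c (some i)), c (some i) % d = 0 := by
    apply Finset.sum_eq_zero
    intro i hi
    have h := (Finset.mem_filter.1 hi).2
    have h0 : c (some i) = 0 := by omega
    rw [h0, Nat.zero_mod]
  rw [this, add_zero]
  rfl

lemma sum_mod_update (c : Option I → ℕ) (i : I) (y d : ℕ) :
    ∑ k, Function.update c (some i) y (some k) % d + c (some i) % d =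
      ∑ k, c (some k) % d + y % d := by
  rw [← Finset.add_sum_erase _ _ (Finset.mem_univ i),
    ← Finset.add_sum_erase (a := i) _ (fun k => c (some k) % d) (Finset.mem_univ i),
    Function.update_self]
  have : ∑ k ∈ Finset.univ.erase i, Function.update c (some i) y (some k) % d =
      ∑ k ∈ Finset.univ.erase i, c (some k) % d := by
    apply Finset.sum_congr rfl
    intro k hk
    rw [Function.update_of_ne]
    simpa using (Finset.mem_erase.1 hk).1
  rw [this]
  ring

lemma condf (d : ℕ) (hd : 0 < d) (N : ℕ) : ∀ c : Option I → ℕ, ∑ o, c o = N → RPb c →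
    c none = 1 →
    (N % d = 0 ∧ ∑ i, c (some i) % d = d - 1) ∨
    (0 < N % d ∧ ∑ i, c (some i) % d = N % d - 1) ∨
    (0 < N % d ∧ ∃ i, N % d ≤ c (some i) ∧
      (c (some i) - N % d) % d + ∑ k, c (some k) % d = d - 1 + c (some i) % d) := by
  induction N using Nat.strong_induction_on with
  | _ N ih =>
    intro c hN hc h1
    have hs := sum_opt c
    rw [hN, h1] at hs
    have small : ∀ c' : Option I → ℕ, ∑ i, c' (some i) < d →
        ∑ i, c' (some i) % d = ∑ i, c' (some i) := by
      intro c' hlt
      apply Finset.sum_congr rfl
      intro i _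
      apply Nat.mod_eq_of_lt
      refine lt_of_le_of_lt ?_ hlt
      exact Finset.single_le_sum (f := fun i => c' (some i)) (fun _ _ => Nat.zero_le _)
        (Finset.mem_univ i)
    rcases Nat.lt_trichotomy N d with hlt | heq | hgt
    · right; left
      rw [small c (by omega), Nat.mod_eq_of_lt hlt]
      omega
    · left
      rw [small c (by omega), heq, Nat.mod_self]
      omega
    · rcases hc.cases_split (t := d) hd (by omega) with ⟨i, x, hx, hx0, hxi, hc'⟩ |
        ⟨a, -, -, -, -, h2, h3⟩
      swap
      · omega
      have hn' : ∑ o, Function.update c (some i) (c (some i) - x) o = N - x := by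
        rw [sum_update hxi, hN]
      have h1' : Function.update c (some i) (c (some i) - x) none = 1 := by
        rw [Function.update_of_ne (by simp), h1]
      have hsm := sum_mod_update c i (c (some i) - x) d
      rw [hN] at hx
      rcases hx with rfl | rfl
      · -- a part of size `d` is cut from branch `i`
        have hmod : (c (some i) - x) % x = c (some i) % x := by
          rw [← Nat.mod_eq_sub_mod hxi]
        have hNm : (N - x) % x = N % x := by
          rw [← Nat.mod_eq_sub_mod (by omega)]
        have hS : ∑ k, Function.update c (some i) (c (some i) - x) (some k) % x =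
            ∑ k, c (some k) % x := by omega
        have hIH := ih (N - x) (by omega) _ hn' hc' h1'
        rw [hNm, hS] at hIH
        rcases hIH with h | h | ⟨hr, k, hk, hk'⟩
        · exact Or.inl h
        · exact Or.inr (Or.inl h)
        · right; right
          by_cases hki : k = i
          · subst hki
            rw [Function.update_self] at hk hk'
            refine ⟨hr, k, by omega, ?_⟩
            have h5 : c (some k) - N % x = (c (some k) - x - N % x) + x := by omega
            rw [h5, Nat.add_mod_right]
            rw [hmod] at hk'
            exact hk'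
          · rw [Function.update_of_ne (by simpa using hki)] at hk hk'
            exact ⟨hr, k, hk, hk'⟩
      · -- the complement of a part of size `d` is cut from branch `i`
        have hs' := sum_opt (Function.update c (some i) (c (some i) - (N - d)))
        rw [hn', h1'] at hs'
        have hS := small (Function.update c (some i) (c (some i) - (N - d))) (by omega)
        have hci : c (some i) - (N - d) < d := by
          have h5 := Finset.single_le_sum
            (f := fun k => Function.update c (some i) (c (some i) - (N - d)) (some k))
            (fun _ _ => Nat.zero_le _) (Finset.mem_univ i)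
          simp only [Function.update_self] at h5
          omega
        rw [Nat.mod_eq_of_lt hci] at hsm
        obtain ⟨q, hq⟩ : ∃ q, N = d * (q + 1) + N % d := by
          have h5 := Nat.div_add_mod N d
          have h6 : 0 < N / d := Nat.div_pos hgt.le hd
          refine ⟨N / d - 1, ?_⟩
          rw [Nat.sub_add_cancel h6]
          exact h5.symm
        have hq' : N - d = d * q + N % d := by
          have : d * (q + 1) = d * q + d := by ring
          omega
        by_cases hr : N % d = 0
        · left
          refine ⟨hr, ?_⟩
          have h7 : c (some i) % d = c (some i) - (N - d) := by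
            have h8 : c (some i) = (c (some i) - (N - d)) + d * q := by omega
            conv_lhs => rw [h8]
            rw [Nat.add_mul_mod_self_left, Nat.mod_eq_of_lt hci]
          omega
        · right; right
          refine ⟨by omega, i, by omega, ?_⟩
          have h7 : (c (some i) - N % d) % d = c (some i) - (N - d) := by
            have h8 : c (some i) - N % d = (c (some i) - (N - d)) + d * q := by omega
            rw [h8, Nat.add_mul_mod_self_left, Nat.mod_eq_of_lt hci]
          rw [h7]
          omega

lemma condM_of_RPb {c : Option I → ℕ} (hc : RPb c) (h1 : c none = 1) (d : ℕ) (hd : 0 < d) :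
    condM (br c) d := by
  have h := condf d hd _ c rfl hc h1
  have hs := sum_opt c
  rw [h1, ← sum_br] at hs
  unfold condM
  rw [sum_mod_br, ← hs]
  rcases h with h | h | ⟨hr, i, hi, hi'⟩
  · exact Or.inl h
  · exact Or.inr (Or.inl h)
  · exact Or.inr (Or.inr ⟨hr, c (some i), mem_br (by omega), hi, hi'⟩)

/-- The elements of a multiset of positive integers are bounded by the sum. -/
lemma mem_bound {M : Multiset ℕ} (hpos : ∀ x ∈ M, 0 < x) {x : ℕ} (hx : x ∈ M) :
    x + (M.card - 1) ≤ M.sum := by
  obtain ⟨M', rfl⟩ := Multiset.exists_cons_of_mem hx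
  rw [Multiset.sum_cons, Multiset.card_cons]
  have : M'.card ≤ M'.sum := by
    have h1 : ∀ y ∈ M', 1 ≤ y := fun y hy => hpos y (Multiset.mem_cons_of_mem hy)
    have h2 := Multiset.card_nsmul_le_sum h1
    simpa using h2
  omega

lemma card_le_sum {M : Multiset ℕ} (hpos : ∀ x ∈ M, 0 < x) : M.card ≤ M.sum := by
  have h1 : ∀ y ∈ M, 1 ≤ y := fun y hy => hpos y hy
  have h2 := Multiset.card_nsmul_le_sum h1
  simpa using h2

lemma no_four {M : Multiset ℕ} (hcard : M.card = 4) (hpos : ∀ x ∈ M, 0 < x)
    (h : ∀ t, 0 < t → t < 1 + M.sum → t ∈ M ∨ 1 + M.sum - t ∈ M) : False := by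
  have hs := card_le_sum hpos
  have hb : ∀ x ∈ M, x + 3 ≤ M.sum := fun x hx => by
    have := mem_bound hpos hx
    omega
  have h1 : 1 ∈ M := by
    rcases h 1 (by omega) (by omega) with h | h
    · exact h
    · have := hb _ h
      omega
  have h2 : 2 ∈ M := by
    rcases h 2 (by omega) (by omega) with h | h
    · exact h
    · have := hb _ h
      omega
  have h3 : 3 ∈ M := by
    rcases h 3 (by omega) (by omega) with h | h
    · exact h
    · have := hb _ h
      omega
  obtain ⟨M1, rfl⟩ := Multiset.exists_cons_of_mem h1
  have h2' : 2 ∈ M1 := by simpa using h2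
  obtain ⟨M2, rfl⟩ := Multiset.exists_cons_of_mem h2'
  have h3' : 3 ∈ M2 := by simpa using h3
  obtain ⟨M3, rfl⟩ := Multiset.exists_cons_of_mem h3'
  simp only [Multiset.card_cons] at hcard
  have hc1 : M3.card = 1 := by omega
  obtain ⟨w, rfl⟩ := Multiset.card_eq_one.1 hc1
  have hw : 0 < w := hpos w (by simp)
  simp only [Multiset.sum_cons, Multiset.sum_singleton, Multiset.mem_cons,
    Multiset.mem_singleton] at h
  have h4 := h 4 (by omega) (by omega)
  have h5 := h 5 (by omega) (by omega)
  omega

/-- `K_1` with at least four branches is not recursively partitionable. -/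
lemma nz_le_three (N : ℕ) : ∀ c : Option I → ℕ, ∑ o, c o = N → RPb c → c none = 1 →
    nz c ≤ 3 := by
  induction N using Nat.strong_induction_on with
  | _ N ih =>
    intro c hN hc h1
    by_contra hcon
    have key : ∀ t, 0 < t → t < N → nz c = 4 ∧ (t ∈ br c ∨ N - t ∈ br c) := by
      intro t ht htN
      rcases hc.cases_split ht (by omega) with ⟨i, x, hx, hx0, hxi, hc'⟩ |
        ⟨a, -, -, -, -, h2, h3⟩
      swap
      · omega
      have hIH := ih (N - x) (by omega) _ (by rw [sum_update hxi, hN]) hc'
        (by rw [Function.update_of_ne (by simp), h1])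
      rcases Nat.lt_or_ge x (c (some i)) with hlt | hge
      · rw [nz_update_lt hlt] at hIH
        omega
      · have hxe : x = c (some i) := le_antisymm hxi hge
        subst hxe
        have := nz_update_eq hx0
        refine ⟨by omega, ?_⟩
        rcases hx with h | h
        · left
          rw [← h]
          exact mem_br hx0
        · right
          rw [← hN, ← h]
          exact mem_br hx0
    have hs := sum_opt c
    rw [hN, h1, ← sum_br] at hs
    have hcl := card_le_sum (pos_br c)
    rw [card_br] at hcl
    have h4 := (key 1 (by omega) (by omega)).1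
    apply no_four (M := br c) (by rw [card_br, h4]) (pos_br c)
    intro t ht htN
    rw [← hs] at htN ⊢
    exact (key t ht htN).2

end Pool.Agent.R25.Rp
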