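import Pool.Agent.R25.Rp.Neg2
import Pool.Agent.R25.Rp.Fam

set_option autoImplicit false
set_option linter.unusedSectionVars false

namespace Pool.Agent.R25.Rp

open Finset

instance (T : Multiset ℕ) (d : ℕ) : Decidable (condM T d) :=
  have : Decidable (∃ x ∈ T, (1 + T.sum) % d ≤ x ∧
      (x - (1 + T.sum) % d) % d + (T.map (· % d)).sum = d - 1 + x % d) :=
    Multiset.decidableExistsMultiset
  inferInstanceAs (Decidable (((1 + T.sum) % d = 0 ∧ (T.map (· % d)).sum = d - 1) ∨
    (0 < (1 + T.sum) % d ∧ (T.map (· % d)).sum = (1 + T.sum) % d - 1) ∨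
    (0 < (1 + T.sum) % d ∧ ∃ x ∈ T, (1 + T.sum) % d ≤ x ∧
      (x - (1 + T.sum) % d) % d + (T.map (· % d)).sum = d - 1 + x % d)))

def condAll (T : Multiset ℕ) : Prop :=
  condM T 2 ∧ condM T 3 ∧ condM T 4 ∧ condM T 5 ∧ condM T 6 ∧ condM T 7

instance (T : Multiset ℕ) : Decidable (condAll T) :=
  inferInstanceAs (Decidable (condM T 2 ∧ condM T 3 ∧ condM T 4 ∧ condM T 5 ∧ condM T 6 ∧
    condM T 7))

lemma condAll_of {T : Multiset ℕ} (h : ∀ d, 0 < d → condM T d) : condAll T :=
  ⟨h 2 (by norm_num), h 3 (by norm_num), h 4 (by norm_num), h 5 (by norm_num),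
    h 6 (by norm_num), h 7 (by norm_num)⟩

def six (M : Multiset ℕ) (t : ℕ) : Prop :=
  t ∈ M ∨ 2 + M.sum - t ∈ M ∨
    ∃ T ∈ Multiset.powersetCard 3 M, 1 + T.sum = t ∧ condAll T ∧ condAll (M - T)

instance (M : Multiset ℕ) (t : ℕ) : Decidable (six M t) :=
  have : Decidable (∃ T ∈ Multiset.powersetCard 3 M, 1 + T.sum = t ∧ condAll T ∧
    condAll (M - T)) := Multiset.decidableExistsMultiset
  inferInstanceAs (Decidable (t ∈ M ∨ 2 + M.sum - t ∈ M ∨
    ∃ T ∈ Multiset.powersetCard 3 M, 1 + T.sum = t ∧ condAll T ∧ condAll (M - T)))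

lemma small_T {T : Multiset ℕ} (hcard : T.card = 3) (hpos : ∀ x ∈ T, 0 < x) (hs : T.sum ≤ 5)
    (hc : ∀ d, 0 < d → condM T d) : T = {1, 1, 2} := by
  obtain ⟨a, b, c, rfl⟩ := Multiset.card_eq_three.1 hcard
  have ha : 0 < a := hpos a (by simp)
  have hb : 0 < b := hpos b (by simp)
  have hc' : 0 < c := hpos c (by simp)
  simp only [Multiset.insert_eq_cons, Multiset.sum_cons, Multiset.sum_singleton] at hs
  have h2 := hc 2 (by norm_num)
  have h3 := hc 3 (by norm_num)
  have ha3 : a ≤ 3 := by omega
  have hb3 : b ≤ 3 := by omega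
  have hc3 : c ≤ 3 := by omega
  clear hc hcard hpos
  interval_cases a <;> interval_cases b <;> interval_cases c <;>
    first
      | omega
      | decide
      | (exfalso; revert h2; decide)
      | (exfalso; revert h3; decide)

lemma sub_sum {M T : Multiset ℕ} (h : T ≤ M) : T.sum + (M - T).sum = M.sum := by
  rw [← Multiset.sum_add, add_tsub_cancel_of_le h]

lemma sub_card_sum {M T : Multiset ℕ} (hpos : ∀ x ∈ M, 0 < x) (h : T ≤ M) :
    M.card - T.card ≤ (M - T).sum := by
  rw [← Multiset.card_sub h]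
  exact card_le_sum fun x hx => hpos x (Multiset.mem_of_le (tsub_le_self) hx)

lemma T_bound {M T : Multiset ℕ} (hpos : ∀ x ∈ M, 0 < x) (h : T ≤ M) :
    T.sum + (M.card - T.card) ≤ M.sum := by
  have h1 := sub_sum h
  have h2 := sub_card_sum hpos h
  omega

lemma no_six {M : Multiset ℕ} (hcard : M.card = 6) (hpos : ∀ x ∈ M, 0 < x)
    (h : ∀ t, 0 < t → t < 2 + M.sum → t ∈ M ∨ 2 + M.sum - t ∈ M ∨
      ∃ T ≤ M, T.card = 3 ∧ 1 + T.sum = t ∧ (∀ d, 0 < d → condM T d) ∧
        ∀ d, 0 < d → condM (M - T) d) : False := by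
  have hs := card_le_sum hpos
  have hb : ∀ x ∈ M, x + 5 ≤ M.sum := fun x hx => by
    have := mem_bound hpos hx
    omega
  have key : ∀ t, 0 < t → t ≤ 6 → t ∈ M ∨ (t = 5 ∧ {1, 1, 2} ≤ M) := by
    intro t ht ht6
    rcases h t ht (by omega) with h | h | ⟨T, hT, hT3, hTs, hTc, -⟩
    · exact Or.inl h
    · have := hb _ h
      omega
    · right
      have h5 := small_T hT3 (fun x hx => hpos x (Multiset.mem_of_le hT hx)) (by omega) hTc
      subst h5
      refine ⟨?_, hT⟩
      rw [← hTs]
      rfl
  have h1 : 1 ∈ M := (key 1 (by omega) (by omega)).resolve_right (by omega)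
  have h2 : 2 ∈ M := (key 2 (by omega) (by omega)).resolve_right (by omega)
  have h3 : 3 ∈ M := (key 3 (by omega) (by omega)).resolve_right (by omega)
  have h4 : 4 ∈ M := (key 4 (by omega) (by omega)).resolve_right (by omega)
  have h6 : 6 ∈ M := (key 6 (by omega) (by omega)).resolve_right (by omega)
  have h5 := key 5 (by omega) (by omega)
  obtain ⟨M1, rfl⟩ := Multiset.exists_cons_of_mem h1
  have h2' : 2 ∈ M1 := by simpa using h2
  obtain ⟨M2, rfl⟩ := Multiset.exists_cons_of_mem h2'
  have h3' : 3 ∈ M2 := by simpa using h3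
  obtain ⟨M3, rfl⟩ := Multiset.exists_cons_of_mem h3'
  have h4' : 4 ∈ M3 := by simpa using h4
  obtain ⟨M4, rfl⟩ := Multiset.exists_cons_of_mem h4'
  have h6' : 6 ∈ M4 := by simpa using h6
  obtain ⟨M5, rfl⟩ := Multiset.exists_cons_of_mem h6'
  simp only [Multiset.card_cons] at hcard
  have hc1 : M5.card = 1 := by omega
  obtain ⟨w, rfl⟩ := Multiset.card_eq_one.1 hc1
  have hw : w = 5 ∨ w = 1 := by
    rcases h5 with h5 | ⟨-, h5⟩
    · left
      simp at h5
      omega
    · right
      have h7 := Multiset.count_le_of_le 1 h5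
      by_contra hw
      have h8 : Multiset.count 1 (1 ::ₘ 2 ::ₘ 3 ::ₘ 4 ::ₘ 6 ::ₘ {w} : Multiset ℕ) = 1 := by
        have hw' : ¬ 1 = w := fun h => hw h.symm
        simp [hw']
      have h9 : Multiset.count 1 ({1, 1, 2} : Multiset ℕ) = 2 := by decide
      omega
  have fin : ∀ t, 0 < t → t < 2 + (1 ::ₘ 2 ::ₘ 3 ::ₘ 4 ::ₘ 6 ::ₘ {w} : Multiset ℕ).sum →
      six (1 ::ₘ 2 ::ₘ 3 ::ₘ 4 ::ₘ 6 ::ₘ {w} : Multiset ℕ) t := by
    intro t ht ht'
    rcases h t ht ht' with h | h | ⟨T, hT, hT3, hTs, hTc, hTc'⟩
    · exact Or.inl h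
    · exact Or.inr (Or.inl h)
    · exact Or.inr (Or.inr ⟨T, Multiset.mem_powersetCard.2 ⟨hT, hT3⟩, hTs, condAll_of hTc,
        condAll_of hTc'⟩)
  rcases hw with rfl | rfl
  · have h7 := fin 7 (by norm_num) (by simp)
    revert h7
    decide +kernel
  · have h7 := fin 5 (by norm_num) (by simp)
    revert h7
    decide +kernel

variable {I : Type*} [Fintype I] [DecidableEq I]

/-- `K_2` with at least six branches is not recursively partitionable. -/
lemma nz_le_five (N : ℕ) : ∀ c : Option I → ℕ, ∑ o, c o = N → RPb c → c none = 2 →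
    nz c ≤ 5 := by
  induction N using Nat.strong_induction_on with
  | _ N ih =>
    intro c hN hc h1
    by_contra hcon
    have hs := sum_opt c
    rw [hN, h1, ← sum_br] at hs
    have key : ∀ t, 0 < t → t < N → nz c = 6 ∧ (t ∈ br c ∨ N - t ∈ br c ∨
        ∃ T ≤ br c, T.card = 3 ∧ 1 + T.sum = t ∧ (∀ d, 0 < d → condM T d) ∧
        ∀ d, 0 < d → condM (br c - T) d) := by
      intro t ht htN
      rcases hc.cases_split ht (by omega) with ⟨i, x, hx, hx0, hxi, hc'⟩ |
        ⟨a, ha, hat, hRa, hRb, h2, h3⟩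
      · have hIH := ih (N - x) (by omega) _ (by rw [sum_update hxi, hN]) hc'
          (by rw [Function.update_of_ne (by simp), h1])
        rcases Nat.lt_or_ge x (c (some i)) with hlt | hge
        · rw [nz_update_lt hlt] at hIH
          omega
        · have hxe : x = c (some i) := le_antisymm hxi hge
          subst hxe
          have := nz_update_eq hx0
          refine ⟨by omega, ?_⟩
          rcases hx with h | h
          · left
            rw [← h]
            exact mem_br hx0
          · right; left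
            rw [← hN, ← h]
            exact mem_br hx0
      · have ha1 : a none = 1 := by omega
        have hb1 : (fun o => c o - a o) none = 1 := by
          show c none - a none = 1
          omega
        have h4 := nz_le_three _ a rfl hRa ha1
        have h5 := nz_le_three _ _ rfl hRb hb1
        have h6 := nz_le_add (c := c) (a := a)
        have hw := whole ha (by omega)
        obtain ⟨hbr, hbr'⟩ := br_whole hw
        refine ⟨by omega, Or.inr (Or.inr ⟨br a, hbr, ?_, ?_, ?_, ?_⟩)⟩
        · rw [card_br]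
          omega
        · have := sum_opt a
          rw [hat, ha1, ← sum_br] at this
          omega
        · exact fun d hd => condM_of_RPb hRa ha1 d hd
        · intro d hd
          rw [hbr']
          exact condM_of_RPb hRb hb1 d hd
    have hcl := card_le_sum (pos_br c)
    rw [card_br] at hcl
    have h4 := (key 1 (by omega) (by omega)).1
    apply no_six (M := br c) (by rw [card_br, h4]) (pos_br c)
    intro t ht htN
    rw [← hs] at htN ⊢
    exact (key t ht htN).2

/-- The representations of an order of a part of `K_3` with eight branches. -/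
lemma rep_three {c : Option I → ℕ} (hc : RPb c) (h3 : c none = 3) (h8 : nz c = 8) {t : ℕ}
    (ht : 0 < t) (htN : t < 3 + (br c).sum) :
    t ∈ br c ∨ 3 + (br c).sum - t ∈ br c ∨
    (∃ a ∈ br c, ∃ x, (x = t ∨ x = 3 + (br c).sum - t) ∧ 0 < x ∧ x < a ∧
      ∃ c' : Option I → ℕ, RPb c' ∧ c' none = 3 ∧ nz c' = 8 ∧ ∑ o, c' o < ∑ o, c o ∧
        br c' = (a - x) ::ₘ (br c).erase a) ∨
    (∃ T ≤ br c, T.card = 3 ∧ (1 + T.sum = t ∨ 1 + T.sum = 3 + (br c).sum - t) ∧
      ∀ d, 0 < d → condM T d) := by
  have hs := sum_opt c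
  rw [h3, ← sum_br] at hs
  rcases hc.cases_split ht (by omega) with ⟨i, x, hx, hx0, hxi, hc'⟩ |
    ⟨a, ha, hat, hRa, hRb, h2, h4⟩
  · rw [hs] at hx
    rcases Nat.lt_or_ge x (c (some i)) with hlt | hge
    · right; right; left
      refine ⟨c (some i), mem_br (by omega), x, hx, hx0, hlt, _, hc', ?_, ?_, ?_,
        br_update_lt hlt⟩
      · rw [Function.update_of_ne (by simp), h3]
      · rw [nz_update_lt hlt, h8]
      · rw [sum_update hxi]
        omega
    · have hxe : x = c (some i) := le_antisymm hxi hge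
      subst hxe
      rcases hx with h | h
      · left
        rw [← h]
        exact mem_br hx0
      · right; left
        rw [← h]
        exact mem_br hx0
  · right; right; right
    have h6 := nz_le_add (c := c) (a := a)
    have hb : ∀ o, (fun o => c o - a o) o ≤ c o := fun o => Nat.sub_le _ _
    have hsb : ∑ o, (c o - a o) = 3 + (br c).sum - t := by
      rw [sum_sub ha, hat, hs]
    rcases (show a none = 1 ∨ a none = 2 by omega) with ha1 | ha2
    · have hb1 : (fun o => c o - a o) none = 2 := by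
        show c none - a none = 2
        omega
      have h4 := nz_le_three _ a rfl hRa ha1
      have h5 := nz_le_five _ _ rfl hRb hb1
      have hw := whole ha (by omega)
      obtain ⟨hbr, hbr'⟩ := br_whole hw
      refine ⟨br a, hbr, ?_, Or.inl ?_, fun d hd => condM_of_RPb hRa ha1 d hd⟩
      · rw [card_br]
        omega
      · have := sum_opt a
        rw [hat, ha1, ← sum_br] at this
        omega
    · have hb1 : (fun o => c o - a o) none = 1 := by
        show c none - a none = 1
        omega
      have h4 := nz_le_five _ a rfl hRa ha2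
      have h5 := nz_le_three _ _ rfl hRb hb1
      have hw := whole ha (by omega)
      have hw' : ∀ i, (fun o => c o - a o) (some i) = 0 ∨
          (fun o => c o - a o) (some i) = c (some i) := fun i => by
        have := hw i
        have := ha (some i)
        simp only
        omega
      obtain ⟨hbr, hbr'⟩ := br_whole (c := c) (a := fun o => c o - a o) hw'
      refine ⟨br (fun o => c o - a o), hbr, ?_, Or.inr ?_,
        fun d hd => condM_of_RPb hRb hb1 d hd⟩
      · rw [card_br]
        omega
      · have h9 := sum_opt (fun o => c o - a o)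
        have h10 := sum_br (fun o => c o - a o)
        beta_reduce at h9 h10
        omega

end Pool.Agent.R25.Rp
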