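import Pool.Agent.R25.Rp.Neg

set_option autoImplicit false
set_option linter.unusedSectionVars false

namespace Pool.Agent.R25.Rp

open Finset

section general

variable {I : Type*} [Fintype I] [DecidableEq I]

/-- A profile with at most one more branch than central vertices (a traceable graph) can be split
into two profiles of the same kind with any prescribed orders. -/
lemma split_tr (j : ℕ) : ∀ c : Option I → ℕ, c none = j → nz c ≤ j + 1 → ∀ t ≤ ∑ o, c o,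
    ∃ a : Option I → ℕ, (∀ o, a o ≤ c o) ∧ ∑ o, a o = t ∧ nz a ≤ a none + 1 ∧
      nz (fun o => c o - a o) ≤ (c none - a none) + 1 := by
  induction j with
  | zero =>
    intro c hc hnz t ht
    rw [sum_opt, hc, zero_add] at ht
    by_cases h0 : t = 0
    · subst h0
      refine ⟨fun _ => 0, fun o => Nat.zero_le _, by simp, ?_, ?_⟩
      · unfold nz
        simp
      · simp only [Nat.sub_zero]
        rw [hc]
        exact hnz
    · have hne : ∃ i, 0 < c (some i) := by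
        by_contra hcon
        push Not at hcon
        have : ∑ i, c (some i) = 0 := Finset.sum_eq_zero fun i _ => by
          have := hcon i
          omega
        omega
      obtain ⟨i, hi⟩ := hne
      have hone : ∀ k, k ≠ i → c (some k) = 0 := by
        intro k hk
        by_contra hk0
        unfold nz at hnz
        have : ({i, k} : Finset I) ⊆ Finset.univ.filter fun i => 0 < c (some i) := by
          intro x hx
          rw [Finset.mem_insert, Finset.mem_singleton] at hx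
          rw [Finset.mem_filter]
          rcases hx with rfl | rfl
          · exact ⟨Finset.mem_univ _, hi⟩
          · exact ⟨Finset.mem_univ _, Nat.pos_of_ne_zero hk0⟩
        have h2 := Finset.card_le_card this
        rw [Finset.card_pair (Ne.symm hk)] at h2
        omega
      have hsum : ∑ k, c (some k) = c (some i) := by
        apply Finset.sum_eq_single i
        · intro k _ hk
          exact hone k hk
        · intro h
          exact absurd (Finset.mem_univ i) h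
      refine ⟨Function.update (fun _ => 0) (some i) t, ?_, ?_, ?_, ?_⟩
      · intro o
        by_cases ho : o = some i
        · subst ho
          rw [Function.update_self]
          omega
        · rw [Function.update_of_ne ho]
          exact Nat.zero_le _
      · rw [Finset.sum_update_of_mem (Finset.mem_univ _)]
        simp
      · rw [Function.update_of_ne (by simp)]
        unfold nz
        refine le_trans (Finset.card_le_card (t := {i}) ?_) (by simp)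
        intro k hk
        rw [Finset.mem_singleton]
        by_contra hki
        have := (Finset.mem_filter.1 hk).2
        rw [Function.update_of_ne (by simpa using hki)] at this
        omega
      · rw [Function.update_of_ne (by simp), hc]
        refine le_trans ?_ hnz
        unfold nz
        apply Finset.card_le_card
        intro k hk
        have := (Finset.mem_filter.1 hk).2
        beta_reduce at this
        rw [Finset.mem_filter]
        exact ⟨Finset.mem_univ _, by omega⟩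
  | succ j ih =>
    intro c hc hnz t ht
    by_cases hz : ∃ i, 0 < c (some i)
    · obtain ⟨i, hi⟩ := hz
      rcases Nat.lt_or_ge (c (some i)) t with hlt | hge
      · -- take the whole branch and one central vertex
        let c' : Option I → ℕ := fun o => if o = some i then 0 else if o = none then j else c o
        have hc'n : c' none = j := by simp [c']
        have hc'i : c' (some i) = 0 := by simp [c']
        have hc'k : ∀ k, k ≠ i → c' (some k) = c (some k) := fun k hk => by simp [c', hk]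
        have hnz' : nz c' + 1 ≤ nz c := by
          unfold nz
          have : insert i (Finset.univ.filter fun k => 0 < c' (some k)) ⊆
              Finset.univ.filter fun k => 0 < c (some k) := by
            intro k hk
            rw [Finset.mem_insert, Finset.mem_filter] at hk
            rw [Finset.mem_filter]
            refine ⟨Finset.mem_univ _, ?_⟩
            rcases hk with rfl | ⟨-, hk⟩
            · exact hi
            · by_cases hki : k = i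
              · rw [hki]
                exact hi
              · rw [hc'k k hki] at hk
                exact hk
          have h2 := Finset.card_le_card this
          rw [Finset.card_insert_of_notMem (by simp [hc'i])] at h2
          exact h2
        have hsum : ∑ o, c' o + c (some i) + 1 = ∑ o, c o := by
          rw [sum_opt, sum_opt, hc'n, hc, ← Finset.add_sum_erase _ _ (Finset.mem_univ i),
            ← Finset.add_sum_erase (a := i) _ (fun k => c (some k)) (Finset.mem_univ i), hc'i]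
          have : ∑ k ∈ Finset.univ.erase i, c' (some k) =
              ∑ k ∈ Finset.univ.erase i, c (some k) := by
            apply Finset.sum_congr rfl
            intro k hk
            exact hc'k k (Finset.mem_erase.1 hk).1
          rw [this]
          ring
        obtain ⟨a', ha', hat', hna', hnc'⟩ := ih c' hc'n (by omega) (t - c (some i) - 1) (by omega)
        let a : Option I → ℕ := fun o =>
          if o = some i then c (some i) else if o = none then a' none + 1 else a' o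
        have han : a none = a' none + 1 := by simp [a]
        have hai : a (some i) = c (some i) := by simp [a]
        have hak : ∀ k, k ≠ i → a (some k) = a' (some k) := fun k hk => by simp [a, hk]
        have ha'n := ha' none
        rw [hc'n] at ha'n
        have ha'i : a' (some i) = 0 := by
          have := ha' (some i)
          rw [hc'i] at this
          omega
        have hdiff : (fun o => c o - a o) = fun o => c' o - a' o := by
          funext o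
          rcases o with _ | k
          · rw [han, hc, hc'n]
            omega
          · by_cases hki : k = i
            · rw [hki, hai, hc'i]
              omega
            · rw [hak k hki, hc'k k hki]
        refine ⟨a, ?_, ?_, ?_, ?_⟩
        · intro o
          rcases o with _ | k
          · rw [han, hc]
            omega
          · by_cases hki : k = i
            · rw [hki, hai]
            · rw [hak k hki]
              have := ha' (some k)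
              rw [hc'k k hki] at this
              exact this
        · have h1 := sum_opt a
          have h2 := sum_opt a'
          rw [han, ← Finset.add_sum_erase _ _ (Finset.mem_univ i), hai] at h1
          rw [← Finset.add_sum_erase _ _ (Finset.mem_univ i), ha'i] at h2
          have h3 : ∑ k ∈ Finset.univ.erase i, a (some k) =
              ∑ k ∈ Finset.univ.erase i, a' (some k) := by
            apply Finset.sum_congr rfl
            intro k hk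
            exact hak k (Finset.mem_erase.1 hk).1
          omega
        · rw [han]
          have : nz a ≤ nz a' + 1 := by
            unfold nz
            refine le_trans (Finset.card_le_card
              (t := insert i (Finset.univ.filter fun k => 0 < a' (some k))) ?_)
              (Finset.card_insert_le _ _)
            intro k hk
            rw [Finset.mem_insert]
            by_cases hki : k = i
            · exact Or.inl hki
            · right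
              have := (Finset.mem_filter.1 hk).2
              rw [hak k hki] at this
              exact Finset.mem_filter.2 ⟨Finset.mem_univ _, this⟩
          omega
        · rw [hdiff, han, hc]
          rw [hc'n] at hnc'
          omega
      · refine ⟨Function.update (fun _ => 0) (some i) t, ?_, ?_, ?_, ?_⟩
        · intro o
          by_cases ho : o = some i
          · subst ho
            rw [Function.update_self]
            omega
          · rw [Function.update_of_ne ho]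
            exact Nat.zero_le _
        · rw [Finset.sum_update_of_mem (Finset.mem_univ _)]
          simp
        · rw [Function.update_of_ne (by simp)]
          unfold nz
          refine le_trans (Finset.card_le_card (t := {i}) ?_) (by simp)
          intro k hk
          rw [Finset.mem_singleton]
          by_contra hki
          have := (Finset.mem_filter.1 hk).2
          rw [Function.update_of_ne (by simpa using hki)] at this
          omega
        · rw [Function.update_of_ne (by simp), hc]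
          refine le_trans ?_ hnz
          unfold nz
          apply Finset.card_le_card
          intro k hk
          have := (Finset.mem_filter.1 hk).2
          beta_reduce at this
          rw [Finset.mem_filter]
          exact ⟨Finset.mem_univ _, by omega⟩
    · push Not at hz
      have hz' : ∀ k, c (some k) = 0 := fun k => by
        have := hz k
        omega
      have hsum : ∑ o, c o = j + 1 := by
        rw [sum_opt, hc]
        simp [hz']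
      refine ⟨Function.update (fun _ => 0) none t, ?_, ?_, ?_, ?_⟩
      · intro o
        by_cases ho : o = none
        · subst ho
          rw [Function.update_self]
          omega
        · rw [Function.update_of_ne ho]
          exact Nat.zero_le _
      · rw [Finset.sum_update_of_mem (Finset.mem_univ _)]
        simp
      · unfold nz
        simp
      · have : nz (fun o => c o - Function.update (fun _ => 0) none t o) = 0 := by
          unfold nz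
          rw [Finset.card_eq_zero, Finset.filter_eq_empty_iff]
          intro k _
          beta_reduce
          rw [hz']
          simp
        rw [this]
        omega

lemma RPb_perm {c : Option I → ℕ} (h : RPb c) (σ : Equiv.Perm I) :
    RPb (fun o => c (o.map σ)) := by
  have hsum : ∀ d : Option I → ℕ, ∑ o, d (Option.map σ o) = ∑ o, d o := fun d =>
    Equiv.sum_comp (Equiv.optionCongr σ) d
  induction h with
  | one c h =>
    apply RPb.one
    rw [hsum, h]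
  | step c hn hconn f hf h1 h2 ih1 ih2 =>
    refine RPb.step _ ?_ ?_ (fun t o => f t (o.map σ)) ?_ ?_ ?_
    · rw [hsum]
      exact hn
    · rcases hconn with h | h
      · exact Or.inl h
      · right
        intro i i' hi hi'
        exact σ.injective (h _ _ hi hi')
    · intro t ht htn
      rw [hsum] at htn
      refine ⟨fun o => (hf t ht htn).1 _, ?_⟩
      rw [hsum]
      exact (hf t ht htn).2
    · intro t ht htn
      rw [hsum] at htn
      exact ih1 t ht htn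
    · intro t ht htn
      rw [hsum] at htn
      exact ih2 t ht htn

end general

lemma exists_perm {f g : Fin 8 → ℕ} (h : (List.ofFn f).Perm (List.ofFn g)) :
    ∃ σ : Equiv.Perm (Fin 8), f = g ∘ σ := by
  have h1 : (List.ofFn (f ∘ Tuple.sort f)).Perm (List.ofFn (g ∘ Tuple.sort g)) :=
    ((Equiv.Perm.ofFn_comp_perm (Tuple.sort f) f).trans h).trans
      (Equiv.Perm.ofFn_comp_perm (Tuple.sort g) g).symm
  have h2 : List.ofFn (f ∘ Tuple.sort f) = List.ofFn (g ∘ Tuple.sort g) := by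
    apply List.Perm.eq_of_sortedLE ?_ ?_ h1
    · exact (Tuple.monotone_sort f).sortedLE_ofFn
    · exact (Tuple.monotone_sort g).sortedLE_ofFn
  have h3 : f ∘ Tuple.sort f = g ∘ Tuple.sort g := List.ofFn_injective h2
  refine ⟨(Tuple.sort f).symm.trans (Tuple.sort g), ?_⟩
  funext x
  have h4 := congrFun h3 ((Tuple.sort f).symm x)
  simpa using h4

/-- A profile from the number of central vertices and the branch sizes. -/
def mk (j : ℕ) (c : Fin 8 → ℕ) : Option (Fin 8) → ℕ := fun o => o.elim j c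

/-- A table of recursively partitionable semistars (number of central vertices, branch sizes),
each with the splits for the orders `1, 2, ...` up to half of the order. -/
def tbl : List ((ℕ × (Fin 8 → ℕ)) × List (ℕ × (Fin 8 → ℕ))) := [
  ((1, ![2, 1, 1, 0, 0, 0, 0, 0]),
     [(0, ![0, 0, 1, 0, 0, 0, 0, 0]), (0, ![2, 0, 0, 0, 0, 0, 0, 0])]),
  ((1, ![3, 2, 1, 0, 0, 0, 0, 0]),
     [(0, ![0, 0, 1, 0, 0, 0, 0, 0]), (0, ![0, 2, 0, 0, 0, 0, 0, 0]),
      (0, ![3, 0, 0, 0, 0, 0, 0, 0])]),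
  ((1, ![4, 1, 1, 0, 0, 0, 0, 0]),
     [(0, ![0, 0, 1, 0, 0, 0, 0, 0]), (0, ![2, 0, 0, 0, 0, 0, 0, 0]),
      (1, ![0, 1, 1, 0, 0, 0, 0, 0])]),
  ((1, ![4, 2, 1, 0, 0, 0, 0, 0]),
     [(0, ![0, 0, 1, 0, 0, 0, 0, 0]), (0, ![0, 2, 0, 0, 0, 0, 0, 0]),
      (0, ![3, 0, 0, 0, 0, 0, 0, 0]), (0, ![4, 0, 0, 0, 0, 0, 0, 0])]),
  ((1, ![4, 3, 1, 0, 0, 0, 0, 0]),
     [(0, ![0, 0, 1, 0, 0, 0, 0, 0]), (0, ![0, 2, 0, 0, 0, 0, 0, 0]),
      (0, ![0, 3, 0, 0, 0, 0, 0, 0]), (0, ![4, 0, 0, 0, 0, 0, 0, 0])]),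
  ((1, ![6, 1, 1, 0, 0, 0, 0, 0]),
     [(0, ![0, 0, 1, 0, 0, 0, 0, 0]), (0, ![2, 0, 0, 0, 0, 0, 0, 0]),
      (1, ![0, 1, 1, 0, 0, 0, 0, 0]), (0, ![4, 0, 0, 0, 0, 0, 0, 0])]),
  ((1, ![6, 2, 1, 0, 0, 0, 0, 0]),
     [(0, ![0, 0, 1, 0, 0, 0, 0, 0]), (0, ![0, 2, 0, 0, 0, 0, 0, 0]),
      (0, ![3, 0, 0, 0, 0, 0, 0, 0]), (1, ![0, 2, 1, 0, 0, 0, 0, 0]),
      (0, ![5, 0, 0, 0, 0, 0, 0, 0])]),
  ((1, ![6, 4, 1, 0, 0, 0, 0, 0]),
     [(0, ![0, 0, 1, 0, 0, 0, 0, 0]), (0, ![0, 2, 0, 0, 0, 0, 0, 0]),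
      (0, ![3, 0, 0, 0, 0, 0, 0, 0]), (0, ![0, 4, 0, 0, 0, 0, 0, 0]),
      (0, ![5, 0, 0, 0, 0, 0, 0, 0]), (0, ![6, 0, 0, 0, 0, 0, 0, 0])]),
  ((2, ![2, 1, 1, 1, 0, 0, 0, 0]),
     [(0, ![0, 0, 0, 1, 0, 0, 0, 0]), (0, ![2, 0, 0, 0, 0, 0, 0, 0]),
      (1, ![0, 0, 1, 1, 0, 0, 0, 0])]),
  ((2, ![2, 2, 1, 1, 0, 0, 0, 0]),
     [(0, ![0, 0, 0, 1, 0, 0, 0, 0]), (0, ![0, 2, 0, 0, 0, 0, 0, 0]),
      (1, ![0, 0, 1, 1, 0, 0, 0, 0]), (1, ![0, 2, 0, 1, 0, 0, 0, 0])]),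
  ((2, ![3, 2, 1, 1, 0, 0, 0, 0]),
     [(0, ![0, 0, 0, 1, 0, 0, 0, 0]), (0, ![0, 2, 0, 0, 0, 0, 0, 0]),
      (0, ![3, 0, 0, 0, 0, 0, 0, 0]), (1, ![0, 2, 0, 1, 0, 0, 0, 0])]),
  ((2, ![3, 2, 2, 1, 0, 0, 0, 0]),
     [(0, ![0, 0, 0, 1, 0, 0, 0, 0]), (0, ![0, 0, 2, 0, 0, 0, 0, 0]),
      (0, ![3, 0, 0, 0, 0, 0, 0, 0]), (1, ![0, 0, 2, 1, 0, 0, 0, 0]),
      (1, ![0, 1, 2, 1, 0, 0, 0, 0])]),
  ((2, ![3, 2, 2, 1, 1, 0, 0, 0]),
     [(0, ![0, 0, 0, 0, 1, 0, 0, 0]), (0, ![0, 0, 2, 0, 0, 0, 0, 0]),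
      (0, ![3, 0, 0, 0, 0, 0, 0, 0]), (1, ![0, 0, 2, 0, 1, 0, 0, 0]),
      (1, ![0, 0, 2, 1, 1, 0, 0, 0])]),
  ((2, ![4, 2, 1, 1, 0, 0, 0, 0]),
     [(0, ![0, 0, 0, 1, 0, 0, 0, 0]), (0, ![0, 2, 0, 0, 0, 0, 0, 0]),
      (1, ![0, 0, 1, 1, 0, 0, 0, 0]), (0, ![4, 0, 0, 0, 0, 0, 0, 0]),
      (1, ![0, 2, 1, 1, 0, 0, 0, 0])]),
  ((2, ![4, 3, 2, 1, 0, 0, 0, 0]),
     [(0, ![0, 0, 0, 1, 0, 0, 0, 0]), (0, ![0, 0, 2, 0, 0, 0, 0, 0]),
      (0, ![0, 3, 0, 0, 0, 0, 0, 0]), (0, ![4, 0, 0, 0, 0, 0, 0, 0]),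
      (1, ![0, 1, 2, 1, 0, 0, 0, 0]), (1, ![0, 3, 2, 0, 0, 0, 0, 0])]),
  ((2, ![4, 3, 2, 1, 1, 0, 0, 0]),
     [(0, ![0, 0, 0, 0, 1, 0, 0, 0]), (0, ![2, 0, 0, 0, 0, 0, 0, 0]),
      (0, ![0, 3, 0, 0, 0, 0, 0, 0]), (0, ![4, 0, 0, 0, 0, 0, 0, 0]),
      (1, ![0, 0, 2, 1, 1, 0, 0, 0]), (1, ![0, 3, 2, 0, 0, 0, 0, 0])]),
  ((2, ![4, 3, 2, 2, 1, 0, 0, 0]),
     [(0, ![0, 0, 0, 1, 0, 0, 0, 0]), (0, ![0, 0, 0, 2, 0, 0, 0, 0]),
      (0, ![3, 0, 0, 0, 0, 0, 0, 0]), (0, ![4, 0, 0, 0, 0, 0, 0, 0]),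
      (1, ![0, 0, 1, 2, 1, 0, 0, 0]), (1, ![0, 3, 0, 2, 0, 0, 0, 0]),
      (1, ![0, 3, 0, 2, 1, 0, 0, 0])]),
  ((2, ![6, 1, 1, 1, 0, 0, 0, 0]),
     [(0, ![0, 0, 0, 1, 0, 0, 0, 0]), (1, ![0, 0, 0, 1, 0, 0, 0, 0]),
      (1, ![0, 0, 1, 1, 0, 0, 0, 0]), (0, ![4, 0, 0, 0, 0, 0, 0, 0]),
      (1, ![2, 0, 1, 1, 0, 0, 0, 0])]),
  ((2, ![6, 2, 1, 1, 0, 0, 0, 0]),
     [(0, ![0, 0, 0, 1, 0, 0, 0, 0]), (0, ![0, 2, 0, 0, 0, 0, 0, 0]),
      (0, ![3, 0, 0, 0, 0, 0, 0, 0]), (0, ![4, 0, 0, 0, 0, 0, 0, 0]),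
      (1, ![0, 2, 1, 1, 0, 0, 0, 0]), (0, ![6, 0, 0, 0, 0, 0, 0, 0])]),
  ((2, ![6, 2, 1, 1, 1, 0, 0, 0]),
     [(0, ![0, 0, 0, 0, 1, 0, 0, 0]), (0, ![0, 2, 0, 0, 0, 0, 0, 0]),
      (1, ![0, 0, 0, 1, 1, 0, 0, 0]), (1, ![0, 2, 0, 0, 1, 0, 0, 0]),
      (1, ![0, 2, 0, 1, 1, 0, 0, 0]), (0, ![6, 0, 0, 0, 0, 0, 0, 0])]),
  ((2, ![6, 2, 2, 1, 0, 0, 0, 0]),
     [(0, ![0, 0, 0, 1, 0, 0, 0, 0]), (0, ![0, 0, 2, 0, 0, 0, 0, 0]),
      (0, ![3, 0, 0, 0, 0, 0, 0, 0]), (1, ![0, 0, 2, 1, 0, 0, 0, 0]),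
      (0, ![5, 0, 0, 0, 0, 0, 0, 0]), (0, ![6, 0, 0, 0, 0, 0, 0, 0])]),
  ((2, ![6, 2, 2, 1, 1, 0, 0, 0]),
     [(0, ![0, 0, 0, 0, 1, 0, 0, 0]), (0, ![0, 0, 2, 0, 0, 0, 0, 0]),
      (0, ![3, 0, 0, 0, 0, 0, 0, 0]), (1, ![0, 0, 2, 0, 1, 0, 0, 0]),
      (1, ![0, 0, 2, 1, 1, 0, 0, 0]), (0, ![6, 0, 0, 0, 0, 0, 0, 0]),
      (1, ![3, 0, 2, 0, 1, 0, 0, 0])]),
  ((2, ![6, 3, 2, 1, 1, 0, 0, 0]),
     [(0, ![0, 1, 0, 0, 0, 0, 0, 0]), (0, ![2, 0, 0, 0, 0, 0, 0, 0]),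
      (0, ![0, 3, 0, 0, 0, 0, 0, 0]), (0, ![4, 0, 0, 0, 0, 0, 0, 0]),
      (1, ![0, 0, 2, 1, 1, 0, 0, 0]), (0, ![6, 0, 0, 0, 0, 0, 0, 0]),
      (1, ![0, 3, 2, 0, 1, 0, 0, 0])]),
  ((2, ![6, 4, 1, 1, 0, 0, 0, 0]),
     [(0, ![0, 0, 0, 1, 0, 0, 0, 0]), (0, ![0, 2, 0, 0, 0, 0, 0, 0]),
      (1, ![0, 0, 1, 1, 0, 0, 0, 0]), (0, ![0, 4, 0, 0, 0, 0, 0, 0]),
      (1, ![0, 2, 1, 1, 0, 0, 0, 0]), (0, ![6, 0, 0, 0, 0, 0, 0, 0]),
      (1, ![0, 4, 1, 1, 0, 0, 0, 0])]),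
  ((2, ![6, 4, 2, 1, 1, 0, 0, 0]),
     [(0, ![0, 1, 0, 0, 0, 0, 0, 0]), (0, ![0, 2, 0, 0, 0, 0, 0, 0]),
      (0, ![3, 0, 0, 0, 0, 0, 0, 0]), (0, ![0, 4, 0, 0, 0, 0, 0, 0]),
      (1, ![0, 0, 2, 1, 1, 0, 0, 0]), (0, ![6, 0, 0, 0, 0, 0, 0, 0]),
      (1, ![0, 4, 0, 1, 1, 0, 0, 0]), (1, ![0, 4, 2, 0, 1, 0, 0, 0])]),
  ((2, ![6, 4, 3, 1, 0, 0, 0, 0]),
     [(0, ![0, 0, 0, 1, 0, 0, 0, 0]), (0, ![0, 0, 2, 0, 0, 0, 0, 0]),
      (0, ![0, 0, 3, 0, 0, 0, 0, 0]), (0, ![0, 4, 0, 0, 0, 0, 0, 0]),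
      (1, ![0, 0, 3, 1, 0, 0, 0, 0]), (0, ![6, 0, 0, 0, 0, 0, 0, 0]),
      (1, ![0, 2, 3, 1, 0, 0, 0, 0]), (1, ![0, 4, 2, 1, 0, 0, 0, 0])]),
  ((2, ![6, 4, 3, 2, 0, 0, 0, 0]),
     [(0, ![0, 0, 0, 1, 0, 0, 0, 0]), (0, ![0, 0, 0, 2, 0, 0, 0, 0]),
      (0, ![0, 0, 3, 0, 0, 0, 0, 0]), (0, ![0, 4, 0, 0, 0, 0, 0, 0]),
      (0, ![5, 0, 0, 0, 0, 0, 0, 0]), (0, ![6, 0, 0, 0, 0, 0, 0, 0]),
      (1, ![0, 1, 3, 2, 0, 0, 0, 0]), (1, ![0, 4, 1, 2, 0, 0, 0, 0])]),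
  ((2, ![6, 4, 3, 2, 1, 0, 0, 0]),
     [(0, ![0, 0, 0, 0, 1, 0, 0, 0]), (0, ![0, 0, 2, 0, 0, 0, 0, 0]),
      (0, ![0, 3, 0, 0, 0, 0, 0, 0]), (0, ![4, 0, 0, 0, 0, 0, 0, 0]),
      (0, ![5, 0, 0, 0, 0, 0, 0, 0]), (0, ![6, 0, 0, 0, 0, 0, 0, 0]),
      (1, ![0, 0, 3, 2, 1, 0, 0, 0]), (1, ![0, 4, 0, 2, 1, 0, 0, 0]),
      (1, ![0, 4, 3, 0, 1, 0, 0, 0])]),
  ((3, ![4, 3, 2, 1, 1, 0, 0, 0]),
     [(0, ![0, 0, 0, 0, 1, 0, 0, 0]), (0, ![0, 0, 2, 0, 0, 0, 0, 0]),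
      (0, ![0, 3, 0, 0, 0, 0, 0, 0]), (0, ![4, 0, 0, 0, 0, 0, 0, 0]),
      (1, ![0, 0, 2, 1, 1, 0, 0, 0]), (1, ![0, 3, 2, 0, 0, 0, 0, 0]),
      (1, ![0, 3, 2, 0, 1, 0, 0, 0])]),
  ((3, ![4, 3, 2, 1, 1, 1, 0, 0]),
     [(0, ![0, 0, 0, 0, 0, 1, 0, 0]), (1, ![0, 0, 0, 0, 0, 1, 0, 0]),
      (1, ![0, 0, 0, 0, 1, 1, 0, 0]), (1, ![2, 0, 0, 0, 0, 1, 0, 0]),
      (1, ![0, 0, 2, 0, 1, 1, 0, 0]), (1, ![4, 0, 0, 0, 0, 1, 0, 0]),
      (1, ![0, 3, 2, 0, 0, 1, 0, 0])]),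
  ((3, ![4, 3, 2, 2, 1, 1, 0, 0]),
     [(0, ![0, 0, 0, 1, 0, 0, 0, 0]), (0, ![0, 0, 0, 2, 0, 0, 0, 0]),
      (1, ![0, 0, 0, 1, 0, 1, 0, 0]), (1, ![0, 0, 0, 2, 0, 1, 0, 0]),
      (1, ![0, 0, 0, 2, 1, 1, 0, 0]), (1, ![0, 3, 0, 2, 0, 0, 0, 0]),
      (1, ![0, 3, 0, 2, 0, 1, 0, 0]), (1, ![4, 0, 0, 2, 0, 1, 0, 0])]),
  ((3, ![4, 3, 2, 2, 1, 1, 1, 0]),
     [(0, ![0, 0, 0, 0, 0, 0, 1, 0]), (0, ![0, 0, 0, 2, 0, 0, 0, 0]),
      (1, ![0, 0, 0, 0, 0, 1, 1, 0]), (1, ![0, 0, 0, 2, 0, 0, 1, 0]),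
      (1, ![0, 0, 0, 2, 0, 1, 1, 0]), (1, ![4, 0, 0, 0, 0, 0, 1, 0]),
      (1, ![0, 3, 0, 2, 0, 0, 1, 0]), (1, ![4, 0, 0, 2, 0, 0, 1, 0])]),
  ((3, ![6, 2, 2, 1, 1, 0, 0, 0]),
     [(0, ![0, 0, 0, 0, 1, 0, 0, 0]), (0, ![0, 0, 2, 0, 0, 0, 0, 0]),
      (1, ![0, 0, 0, 1, 1, 0, 0, 0]), (1, ![0, 0, 2, 0, 1, 0, 0, 0]),
      (1, ![0, 0, 2, 1, 1, 0, 0, 0]), (0, ![6, 0, 0, 0, 0, 0, 0, 0]),
      (1, ![3, 0, 2, 0, 1, 0, 0, 0])]),
  ((3, ![6, 2, 2, 1, 1, 1, 0, 0]),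
     [(0, ![0, 0, 0, 0, 0, 1, 0, 0]), (1, ![0, 0, 0, 0, 0, 1, 0, 0]),
      (1, ![0, 0, 0, 0, 1, 1, 0, 0]), (1, ![0, 0, 2, 0, 0, 1, 0, 0]),
      (1, ![0, 0, 2, 0, 1, 1, 0, 0]), (2, ![0, 0, 2, 0, 1, 1, 0, 0]),
      (1, ![3, 0, 2, 0, 0, 1, 0, 0]), (1, ![4, 0, 2, 0, 0, 1, 0, 0])]),
  ((3, ![6, 3, 2, 2, 1, 0, 0, 0]),
     [(0, ![0, 0, 0, 0, 1, 0, 0, 0]), (0, ![0, 0, 0, 2, 0, 0, 0, 0]),
      (0, ![0, 3, 0, 0, 0, 0, 0, 0]), (1, ![0, 0, 0, 2, 1, 0, 0, 0]),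
      (1, ![0, 0, 1, 2, 1, 0, 0, 0]), (0, ![6, 0, 0, 0, 0, 0, 0, 0]),
      (1, ![0, 3, 0, 2, 1, 0, 0, 0]), (1, ![4, 0, 0, 2, 1, 0, 0, 0])]),
  ((3, ![6, 3, 2, 2, 1, 1, 0, 0]),
     [(0, ![0, 0, 0, 0, 0, 1, 0, 0]), (0, ![0, 2, 0, 0, 0, 0, 0, 0]),
      (0, ![0, 3, 0, 0, 0, 0, 0, 0]), (1, ![0, 1, 0, 2, 0, 0, 0, 0]),
      (1, ![0, 0, 0, 2, 1, 1, 0, 0]), (1, ![0, 3, 0, 2, 0, 0, 0, 0]),
      (1, ![0, 3, 0, 2, 0, 1, 0, 0]), (1, ![4, 0, 0, 2, 0, 1, 0, 0]),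
      (1, ![6, 0, 0, 0, 1, 1, 0, 0])]),
  ((3, ![6, 3, 2, 2, 1, 1, 1, 0]),
     [(0, ![0, 0, 0, 0, 0, 0, 1, 0]), (0, ![2, 0, 0, 0, 0, 0, 0, 0]),
      (0, ![0, 3, 0, 0, 0, 0, 0, 0]), (1, ![0, 0, 0, 2, 0, 0, 1, 0]),
      (1, ![0, 1, 0, 2, 0, 0, 1, 0]), (1, ![0, 3, 0, 2, 0, 0, 0, 0]),
      (1, ![0, 3, 0, 2, 0, 0, 1, 0]), (1, ![4, 0, 0, 2, 0, 0, 1, 0]),
      (2, ![0, 3, 0, 2, 0, 1, 1, 0])]),
  ((3, ![6, 4, 2, 1, 1, 0, 0, 0]),
     [(0, ![0, 0, 0, 0, 1, 0, 0, 0]), (0, ![0, 0, 2, 0, 0, 0, 0, 0]),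
      (0, ![3, 0, 0, 0, 0, 0, 0, 0]), (0, ![0, 4, 0, 0, 0, 0, 0, 0]),
      (1, ![0, 0, 2, 1, 1, 0, 0, 0]), (0, ![6, 0, 0, 0, 0, 0, 0, 0]),
      (1, ![0, 3, 2, 0, 1, 0, 0, 0]), (1, ![0, 4, 2, 0, 1, 0, 0, 0])]),
  ((3, ![6, 4, 2, 1, 1, 1, 0, 0]),
     [(0, ![0, 0, 0, 0, 0, 1, 0, 0]), (0, ![0, 2, 0, 0, 0, 0, 0, 0]),
      (0, ![3, 0, 0, 0, 0, 0, 0, 0]), (1, ![0, 0, 2, 0, 0, 1, 0, 0]),
      (1, ![0, 0, 2, 0, 1, 1, 0, 0]), (1, ![0, 4, 0, 0, 0, 1, 0, 0]),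
      (1, ![0, 3, 2, 0, 0, 1, 0, 0]), (1, ![0, 4, 2, 0, 0, 1, 0, 0]),
      (1, ![3, 4, 0, 0, 0, 1, 0, 0])]),
  ((3, ![6, 4, 2, 2, 1, 1, 1, 0]),
     [(0, ![0, 1, 0, 0, 0, 0, 0, 0]), (0, ![0, 0, 0, 2, 0, 0, 0, 0]),
      (0, ![3, 0, 0, 0, 0, 0, 0, 0]), (0, ![0, 4, 0, 0, 0, 0, 0, 0]),
      (1, ![0, 1, 0, 2, 0, 0, 1, 0]), (1, ![0, 4, 0, 0, 0, 0, 1, 0]),
      (1, ![0, 3, 0, 2, 0, 0, 1, 0]), (1, ![0, 4, 0, 2, 0, 0, 1, 0]),
      (1, ![3, 4, 0, 0, 0, 0, 1, 0]), (1, ![6, 0, 0, 2, 0, 0, 1, 0])]),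
  ((3, ![6, 4, 3, 2, 1, 1, 1, 0]),
     [(0, ![0, 0, 1, 0, 0, 0, 0, 0]), (0, ![0, 2, 0, 0, 0, 0, 0, 0]),
      (0, ![0, 0, 3, 0, 0, 0, 0, 0]), (0, ![4, 0, 0, 0, 0, 0, 0, 0]),
      (1, ![0, 0, 0, 2, 0, 1, 1, 0]), (0, ![6, 0, 0, 0, 0, 0, 0, 0]),
      (1, ![0, 0, 3, 2, 0, 0, 1, 0]), (1, ![0, 4, 1, 2, 0, 0, 0, 0]),
      (1, ![0, 4, 3, 0, 0, 0, 1, 0]), (1, ![6, 2, 0, 0, 0, 0, 1, 0])]),
  ((3, ![6, 4, 3, 2, 2, 1, 1, 0]),
     [(0, ![0, 0, 0, 0, 1, 0, 0, 0]), (0, ![0, 0, 2, 0, 0, 0, 0, 0]),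
      (0, ![0, 3, 0, 0, 0, 0, 0, 0]), (0, ![0, 4, 0, 0, 0, 0, 0, 0]),
      (0, ![5, 0, 0, 0, 0, 0, 0, 0]), (0, ![6, 0, 0, 0, 0, 0, 0, 0]),
      (1, ![0, 1, 3, 0, 2, 0, 0, 0]), (1, ![0, 4, 1, 0, 2, 0, 0, 0]),
      (1, ![0, 4, 3, 0, 0, 0, 1, 0]), (1, ![6, 0, 0, 0, 2, 0, 1, 0]),
      (1, ![6, 4, 0, 0, 0, 0, 0, 0])]),
  ((3, ![6, 4, 3, 2, 2, 1, 1, 1]),
     [(0, ![0, 0, 0, 0, 0, 0, 0, 1]), (0, ![0, 0, 0, 0, 2, 0, 0, 0]),
      (0, ![0, 0, 3, 0, 0, 0, 0, 0]), (0, ![0, 4, 0, 0, 0, 0, 0, 0]),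
      (1, ![0, 0, 0, 0, 2, 0, 1, 1]), (0, ![6, 0, 0, 0, 0, 0, 0, 0]),
      (1, ![0, 0, 3, 0, 2, 0, 0, 1]), (1, ![0, 4, 0, 0, 2, 0, 0, 1]),
      (1, ![0, 4, 3, 0, 0, 0, 0, 1]), (1, ![6, 0, 0, 0, 2, 0, 0, 1]),
      (2, ![0, 0, 3, 2, 2, 0, 1, 1])])]

def okF (j : ℕ) (c : Fin 8 → ℕ) : Bool :=
  decide ((Finset.univ.filter fun i => 0 < c i).card ≤ j + 1) ||
    tbl.any fun e => e.1.1 == j && (List.ofFn c).isPerm (List.ofFn e.1.2)

def chkS (j : ℕ) (c : Fin 8 → ℕ) (i : ℕ) (s : ℕ × (Fin 8 → ℕ)) : Bool :=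
  decide (s.1 ≤ j) && decide (∀ k, s.2 k ≤ c k) && decide (s.1 + ∑ k, s.2 k = i + 1) &&
    okF s.1 s.2 && okF (j - s.1) (fun k => c k - s.2 k)

def chkE (e : (ℕ × (Fin 8 → ℕ)) × List (ℕ × (Fin 8 → ℕ))) : Bool :=
  decide (0 < e.1.1) && (List.range ((e.1.1 + ∑ k, e.1.2 k) / 2)).all fun i =>
    chkS e.1.1 e.1.2 i (e.2.getD i (0, fun _ => 0))

lemma tbl_check : tbl.all chkE = true := by decide +kernel

lemma sum_mk (j : ℕ) (c : Fin 8 → ℕ) : ∑ o, mk j c o = j + ∑ k, c k := by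
  rw [sum_opt]
  rfl

lemma nz_mk (j : ℕ) (c : Fin 8 → ℕ) : nz (mk j c) = (Finset.univ.filter fun i => 0 < c i).card :=
  rfl

lemma mk_sub (j j' : ℕ) (c c' : Fin 8 → ℕ) :
    (fun o => mk j c o - mk j' c' o) = mk (j - j') (fun k => c k - c' k) := by
  funext o
  rcases o with _ | k <;> rfl

theorem RPb_of_ok (N : ℕ) : ∀ (j : ℕ) (c : Fin 8 → ℕ), j + ∑ k, c k = N → 0 < N →
    okF j c = true → RPb (mk j c) := by
  induction N using Nat.strong_induction_on with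
  | _ N ih =>
    intro j c hN hN0 hok
    unfold okF at hok
    rw [Bool.or_eq_true, decide_eq_true_eq] at hok
    rcases hok with hok | hok
    · -- traceable
      have hs := sum_mk j c
      have key : ∀ t, 0 < t → t < ∑ o, mk j c o → ∃ a : Option (Fin 8) → ℕ,
          ((∀ o, a o ≤ mk j c o) ∧ ∑ o, a o = t) ∧ RPb a ∧ RPb (fun o => mk j c o - a o) := by
        intro t ht htn
        obtain ⟨a, ha, hat, h1, h2⟩ := split_tr j (mk j c) rfl (by rw [nz_mk]; exact hok) t htn.le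
        have ham : a = mk (a none) (fun k => a (some k)) := by
          funext o
          rcases o with _ | k <;> rfl
        have hbm : (fun o => mk j c o - a o) =
            mk (j - a none) (fun k => c k - a (some k)) := by
          funext o
          rcases o with _ | k <;> rfl
        have hsa : a none + ∑ k, a (some k) = t := by
          rw [← hat, sum_opt]
        have hsb : (j - a none) + ∑ k, (c k - a (some k)) = N - t := by
          rw [← sum_mk, ← hbm, sum_sub ha, hat, hs, hN]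
        refine ⟨a, ⟨ha, hat⟩, ?_, ?_⟩
        · rw [ham]
          apply ih t (by omega) _ _ hsa ht
          unfold okF
          rw [Bool.or_eq_true, decide_eq_true_eq]
          exact Or.inl h1
        · rw [hbm]
          apply ih (N - t) (by omega) _ _ hsb (by omega)
          unfold okF
          rw [Bool.or_eq_true, decide_eq_true_eq]
          exact Or.inl h2
      choose! f hf h1 h2 using key
      refine RPb.step _ (by omega) ?_ f hf h1 h2
      by_cases hj : 0 < j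
      · exact Or.inl hj
      · right
        intro i i' hi hi'
        by_contra hne
        have : ({i, i'} : Finset (Fin 8)) ⊆ Finset.univ.filter fun i => 0 < c i := by
          intro x hx
          rw [Finset.mem_insert, Finset.mem_singleton] at hx
          rw [Finset.mem_filter]
          rcases hx with rfl | rfl
          · exact ⟨Finset.mem_univ _, hi⟩
          · exact ⟨Finset.mem_univ _, hi'⟩
        have h5 := Finset.card_le_card this
        rw [Finset.card_pair hne] at h5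
        omega
    · -- in the table
      rw [List.any_eq_true] at hok
      obtain ⟨e, he, hok⟩ := hok
      rw [Bool.and_eq_true, beq_iff_eq] at hok
      obtain ⟨rfl, hp⟩ := hok
      obtain ⟨σ, rfl⟩ := exists_perm (List.isPerm_iff.1 hp)
      have hsσ : ∑ k, (e.1.2 ∘ σ) k = ∑ k, e.1.2 k := Equiv.sum_comp σ e.1.2
      have hmain : RPb (mk e.1.1 e.1.2) := by
        have hchk := List.all_eq_true.1 tbl_check e he
        unfold chkE at hchk
        rw [Bool.and_eq_true, decide_eq_true_eq, List.all_eq_true] at hchk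
        obtain ⟨hj, hchk⟩ := hchk
        have hs := sum_mk e.1.1 e.1.2
        have half : ∀ t, 0 < t → t ≤ (e.1.1 + ∑ k, e.1.2 k) / 2 →
            ∃ a : Option (Fin 8) → ℕ, ((∀ o, a o ≤ mk e.1.1 e.1.2 o) ∧ ∑ o, a o = t) ∧ RPb a ∧
              RPb (fun o => mk e.1.1 e.1.2 o - a o) := by
          intro t ht htn
          have h1 := hchk (t - 1) (List.mem_range.2 (by omega))
          generalize e.2.getD (t - 1) (0, fun _ => 0) = s at h1
          unfold chkS at h1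
          simp only [Bool.and_eq_true, decide_eq_true_eq] at h1
          obtain ⟨⟨⟨⟨h1, h2⟩, h3⟩, h4⟩, h5⟩ := h1
          have h6 : s.1 + ∑ k, s.2 k = t := by omega
          have hle : ∀ o, mk s.1 s.2 o ≤ mk e.1.1 e.1.2 o := by
            intro o
            rcases o with _ | k
            · exact h1
            · exact h2 k
          refine ⟨mk s.1 s.2, ⟨hle, by rw [sum_mk, h6]⟩, ?_, ?_⟩
          · exact ih t (by omega) _ _ h6 ht h4
          · rw [mk_sub]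
            refine ih (N - t) (by omega) _ _ ?_ (by omega) h5
            rw [← sum_mk, ← mk_sub, sum_sub hle, sum_mk, sum_mk, h6]
            omega
        have key : ∀ t, 0 < t → t < ∑ o, mk e.1.1 e.1.2 o → ∃ a : Option (Fin 8) → ℕ,
            ((∀ o, a o ≤ mk e.1.1 e.1.2 o) ∧ ∑ o, a o = t) ∧ RPb a ∧
              RPb (fun o => mk e.1.1 e.1.2 o - a o) := by
          intro t ht htn
          rw [hs] at htn
          rcases Nat.lt_or_ge ((e.1.1 + ∑ k, e.1.2 k) / 2) t with h | h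
          swap
          · exact half t ht h
          · obtain ⟨a, ⟨ha, hat⟩, h1, h2⟩ := half (e.1.1 + ∑ k, e.1.2 k - t) (by omega) (by omega)
            refine ⟨fun o => mk e.1.1 e.1.2 o - a o, ⟨fun o => Nat.sub_le _ _, ?_⟩, h2, ?_⟩
            · rw [sum_sub ha, hat, hs]
              omega
            · have : (fun o => mk e.1.1 e.1.2 o - (mk e.1.1 e.1.2 o - a o)) = a := by
                funext o
                have := ha o
                omega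
              rw [this]
              exact h1
        choose! f hf h1 h2 using key
        exact RPb.step _ (by omega) (Or.inl hj) f hf h1 h2
      have h7 := RPb_perm hmain σ
      have h8 : (fun o => mk e.1.1 e.1.2 (Option.map σ o)) = mk e.1.1 (e.1.2 ∘ σ) := by
        funext o
        rcases o with _ | k <;> rfl
      rw [h8] at h7
      exact h7

lemma RPb_23 : RPb (mk 3 ![1, 1, 1, 2, 2, 3, 4, 6]) := by
  refine RPb_of_ok 23 _ _ (by decide) (by norm_num) (by decide +kernel)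

end Pool.Agent.R25.Rp
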