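import Mathlib

set_option autoImplicit false

namespace Pool.Agent.R25.Rp

/-- Branch sizes of candidates for recursively partitionable `K_3(b_1, ..., b_8)`, grouped by their
sum. -/
def RG : List (ℕ × List (List ℕ)) := [
  (19, [[1, 1, 1, 1, 2, 3, 4, 6]]),
  (20, [[1, 1, 1, 2, 2, 3, 4, 6]]),
  (21, [[1, 1, 1, 2, 3, 3, 4, 6],
    [1, 1, 2, 2, 2, 3, 4, 6]]),
  (22, [[1, 1, 1, 2, 3, 4, 4, 6],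
    [1, 1, 2, 2, 3, 3, 4, 6]]),
  (23, [[1, 1, 1, 2, 3, 4, 5, 6],
    [1, 1, 2, 2, 3, 4, 4, 6],
    [1, 1, 2, 3, 3, 3, 4, 6]]),
  (24, [[1, 1, 1, 2, 3, 4, 6, 6],
    [1, 1, 2, 2, 3, 4, 5, 6],
    [1, 1, 2, 3, 3, 4, 4, 6]]),
  (25, [[1, 1, 1, 2, 3, 4, 6, 7]]),
  (26, [[1, 1, 1, 2, 2, 3, 4, 12],
    [1, 1, 1, 2, 3, 4, 6, 8],
    [1, 1, 2, 2, 3, 4, 6, 7]]),
  (27, [[1, 1, 2, 3, 3, 4, 6, 7]]),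
  (28, [[1, 1, 1, 2, 3, 4, 6, 10],
    [1, 1, 1, 2, 4, 6, 6, 7],
    [1, 1, 2, 3, 3, 4, 6, 8],
    [1, 1, 2, 3, 4, 4, 6, 7]]),
  (29, [[1, 1, 1, 2, 4, 6, 6, 8],
    [1, 1, 2, 2, 3, 4, 6, 10],
    [1, 1, 2, 3, 4, 4, 6, 8]]),
  (30, [[1, 1, 1, 2, 3, 4, 6, 12],
    [1, 1, 2, 3, 3, 4, 6, 10],
    [1, 1, 2, 3, 4, 4, 6, 9],
    [1, 1, 2, 3, 4, 5, 6, 8],
    [1, 2, 2, 3, 4, 5, 6, 7]]),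
  (31, [[1, 1, 1, 2, 3, 4, 7, 12],
    [1, 1, 1, 2, 4, 6, 7, 9],
    [1, 1, 2, 2, 3, 4, 6, 12],
    [1, 1, 2, 3, 4, 6, 6, 8],
    [1, 2, 2, 3, 4, 5, 6, 8],
    [1, 2, 3, 3, 4, 5, 6, 7]]),
  (32, [[1, 1, 2, 3, 4, 5, 6, 10],
    [1, 1, 2, 3, 4, 6, 7, 8],
    [1, 2, 3, 3, 4, 5, 6, 8],
    [1, 2, 3, 4, 4, 5, 6, 7]]),
  (33, [[1, 2, 2, 3, 4, 5, 6, 10]]),
  (34, [[1, 1, 1, 2, 3, 4, 6, 16],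
    [1, 1, 1, 2, 3, 4, 10, 12],
    [1, 1, 1, 2, 3, 6, 8, 12],
    [1, 1, 1, 2, 4, 6, 7, 12],
    [1, 1, 1, 2, 4, 6, 9, 10],
    [1, 1, 2, 3, 3, 6, 8, 10],
    [1, 2, 3, 3, 4, 5, 6, 10]]),
  (35, [[1, 1, 2, 2, 3, 4, 6, 16],
    [1, 1, 2, 3, 4, 6, 8, 10],
    [1, 1, 2, 4, 6, 6, 7, 8]]),
  (36, [[1, 1, 2, 3, 3, 4, 6, 16],
    [1, 1, 2, 3, 4, 4, 6, 15],
    [1, 1, 2, 3, 4, 6, 7, 12],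
    [1, 1, 2, 3, 4, 6, 9, 10],
    [1, 2, 2, 3, 4, 6, 8, 10],
    [1, 2, 3, 3, 4, 6, 7, 10],
    [1, 2, 3, 4, 5, 6, 7, 8]]),
  (37, [[1, 1, 2, 3, 4, 6, 8, 12],
    [1, 2, 3, 3, 4, 6, 8, 10]]),
  (38, [[1, 1, 1, 2, 3, 4, 6, 20],
    [1, 1, 2, 3, 3, 4, 6, 18],
    [1, 1, 2, 3, 4, 5, 6, 16],
    [1, 1, 2, 3, 5, 6, 8, 12]]),
  (39, [[1, 1, 1, 2, 3, 4, 6, 21]]),
  (40, [[1, 1, 1, 2, 3, 4, 6, 22],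
    [1, 1, 1, 2, 3, 4, 12, 16],
    [1, 1, 2, 2, 3, 4, 6, 21],
    [1, 1, 2, 3, 4, 6, 7, 16],
    [1, 1, 2, 3, 4, 6, 8, 15],
    [1, 1, 2, 3, 4, 7, 10, 12],
    [1, 1, 2, 4, 6, 6, 8, 12],
    [1, 1, 3, 4, 5, 6, 8, 12],
    [1, 2, 3, 4, 5, 6, 7, 12],
    [1, 2, 3, 4, 6, 6, 8, 10]]),
  (41, [[1, 1, 2, 2, 3, 4, 6, 22],
    [1, 1, 2, 2, 3, 4, 12, 16],
    [1, 1, 2, 3, 4, 6, 8, 16],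
    [1, 1, 2, 3, 4, 8, 10, 12],
    [1, 2, 3, 4, 6, 6, 7, 12]]),
  (42, [[1, 1, 3, 4, 6, 7, 8, 12],
    [1, 2, 3, 3, 4, 6, 8, 15]]),
  (43, [[1, 1, 2, 3, 4, 6, 8, 18],
    [1, 1, 2, 4, 6, 6, 8, 15]]),
  (44, [[1, 1, 2, 3, 3, 4, 6, 24],
    [1, 1, 2, 3, 4, 6, 7, 20],
    [1, 1, 2, 3, 4, 6, 12, 15],
    [1, 2, 3, 4, 5, 6, 7, 16],
    [1, 2, 3, 4, 5, 6, 8, 15]]),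
  (45, [[1, 1, 2, 3, 4, 6, 12, 16],
    [1, 2, 3, 4, 5, 6, 8, 16],
    [1, 2, 3, 4, 6, 7, 10, 12]]),
  (46, [[1, 1, 2, 3, 4, 7, 12, 16],
    [1, 2, 3, 4, 6, 6, 8, 16],
    [1, 2, 3, 4, 6, 7, 11, 12]]),
  (47, [[1, 1, 2, 3, 4, 6, 8, 22],
    [1, 2, 3, 4, 6, 8, 8, 15]]),
  (48, [[1, 1, 2, 3, 4, 6, 10, 21],
    [1, 1, 2, 3, 4, 6, 15, 16],
    [1, 1, 2, 3, 6, 8, 12, 15]]),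
  (49, [[1, 2, 3, 4, 6, 8, 10, 15]]),
  (50, [[1, 1, 2, 3, 4, 6, 12, 21],
    [1, 1, 2, 3, 4, 6, 16, 17],
    [1, 1, 2, 3, 4, 7, 12, 20]]),
  (51, [[1, 1, 2, 3, 4, 6, 10, 24],
    [1, 2, 3, 4, 6, 7, 12, 16]]),
  (52, [[1, 1, 2, 3, 4, 6, 7, 28],
    [1, 2, 3, 4, 5, 6, 10, 21]]),
  (55, [[1, 1, 2, 3, 4, 6, 8, 30],
    [1, 2, 3, 4, 5, 6, 10, 24]]),
  (56, [[1, 1, 2, 3, 4, 7, 12, 26],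
    [1, 2, 3, 4, 6, 7, 12, 21],
    [1, 2, 3, 4, 6, 7, 16, 17]])]

/-- Membership in the table up to order. -/
def inR (l : List ℕ) : Bool := RG.any fun g => g.1 == l.sum && g.2.any fun r => l.isPerm r

def condL (T : List ℕ) (d : ℕ) : Bool :=
  (((1 + T.sum) % d == 0) && ((T.map (· % d)).sum == d - 1)) ||
  (decide (0 < (1 + T.sum) % d) && ((T.map (· % d)).sum == (1 + T.sum) % d - 1)) ||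
    (decide (0 < (1 + T.sum) % d) && T.any fun x => decide ((1 + T.sum) % d ≤ x) &&
      ((x - (1 + T.sum) % d) % d + (T.map (· % d)).sum == d - 1 + x % d))

def condA (T : List ℕ) : Bool :=
  condL T 2 && condL T 3 && condL T 4 && condL T 5 && condL T 6 && condL T 7

def any2 (p : ℕ → ℕ → Bool) : List ℕ → Bool
  | [] => false
  | b :: l => (l.any fun c => p b c) || any2 p l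

def any3 (p : ℕ → ℕ → ℕ → Bool) : List ℕ → Bool
  | [] => false
  | a :: l => any2 (p a) l || any3 p l

def repB (l : List ℕ) (t : ℕ) : Bool :=
  l.contains t || l.contains (3 + l.sum - t) ||
  (any3 (fun a b c => ((1 + (a + (b + c)) == t) || (1 + (a + (b + c)) == 3 + l.sum - t)) &&
    condA [a, b, c]) l) ||
  (decide (3 + l.sum - t ≤ 59) && l.any fun a => decide (t < a) && inR ((a - t) :: l.erase a)) ||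
  (decide (t ≤ 59) && l.any fun a => decide (3 + l.sum - t < a) &&
    inR ((a - (3 + l.sum - t)) :: l.erase a))

/-- Certificate check: order `m` is not representable, or (for `m = 0`) the list is in the
table. -/
def good (l : List ℕ) (m : ℕ) : Bool :=
  bif m == 0 then inR l else decide (m < 3 + l.sum) && !repB l m

def hint0 : List (List (List ℕ)) := [
  [[0, 0, 0, 0, 0, 0], [0, 0, 0, 0, 0, 0], [0, 0, 0, 0, 0, 0], [0, 0, 0, 0, 0, 0],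
  [0, 5, 0, 0, 2, 0], [0, 0, 11, 0, 3, 0], [0, 0, 0, 12, 4, 0], [0, 0, 0, 0, 6, 14]],
  [[0, 0, 0, 0, 14, 0], [0, 0, 0, 0, 14, 0], [0, 0, 0, 0, 14, 0], [0, 0, 0, 0, 0, 0],
  [0, 0, 0, 0, 0, 0], [0, 0, 11, 0, 3, 0], [0, 0, 0, 12, 4, 0], [0, 0, 0, 0, 6, 0]],
  [[0, 0, 0, 0, 14, 0], [0, 0, 0, 0, 14, 0], [0, 0, 0, 0, 14, 0], [0, 5, 0, 0, 2, 0],
  [0, 0, 0, 0, 0, 0], [0, 0, 0, 0, 0, 0], [0, 0, 0, 14, 4, 0], [0, 0, 0, 0, 6, 10]],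
  [[0, 0, 0, 0, 14, 0], [0, 0, 0, 0, 14, 0], [0, 0, 0, 0, 0, 0], [0, 0, 0, 0, 0, 0],
  [0, 0, 0, 0, 0, 0], [0, 0, 11, 0, 3, 0], [0, 0, 0, 14, 4, 0], [0, 0, 0, 0, 6, 10]],
  [[0, 0, 0, 0, 14, 0], [0, 0, 0, 0, 14, 0], [0, 0, 0, 0, 14, 0], [0, 5, 0, 0, 8, 0],
  [0, 0, 11, 0, 3, 0], [0, 0, 0, 0, 14, 0], [0, 0, 0, 0, 14, 0], [0, 0, 0, 0, 6, 10]],
  [[0, 0, 0, 0, 14, 0], [0, 0, 0, 0, 14, 0], [0, 0, 0, 0, 0, 0], [0, 0, 0, 0, 0, 0],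
  [0, 0, 0, 0, 15, 0], [0, 0, 0, 0, 15, 0], [0, 0, 0, 14, 4, 0], [0, 0, 0, 0, 6, 10]],
  [[0, 0, 0, 0, 0, 0], [0, 0, 0, 0, 0, 0], [0, 0, 0, 0, 0, 0], [0, 8, 0, 0, 0, 0],
  [0, 0, 14, 0, 0, 0], [0, 0, 0, 15, 0, 0], [0, 0, 0, 0, 0, 0], [0, 0, 0, 0, 0, 10]],
  [[0, 0, 0, 0, 14, 0], [0, 0, 0, 0, 14, 0], [0, 0, 0, 0, 0, 0], [0, 0, 0, 0, 0, 0],
  [0, 0, 11, 0, 3, 0], [0, 0, 0, 0, 15, 0], [0, 0, 0, 0, 15, 0], [0, 0, 0, 0, 6, 10]],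
  [[0, 0, 0, 0, 14, 0], [0, 0, 0, 0, 14, 0], [0, 5, 0, 0, 2, 0], [0, 0, 0, 0, 0, 0],
  [0, 0, 0, 0, 0, 0], [0, 0, 0, 0, 0, 0], [0, 0, 0, 15, 4, 0], [0, 0, 0, 0, 6, 10]],
  [[0, 0, 0, 0, 14, 0], [0, 0, 0, 0, 14, 0], [0, 0, 0, 0, 14, 0], [0, 5, 0, 0, 2, 0],
  [0, 0, 11, 0, 0, 0], [0, 0, 0, 12, 4, 0], [0, 0, 0, 0, 14, 0], [0, 0, 0, 0, 14, 0]],
  [[0, 0, 0, 0, 0, 0], [0, 0, 0, 0, 0, 0], [0, 0, 0, 0, 0, 0], [0, 0, 0, 0, 0, 0],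
  [0, 0, 14, 0, 0, 0], [0, 0, 0, 12, 0, 0], [0, 0, 0, 0, 0, 0], [0, 0, 0, 0, 0, 10]],
  [[0, 0, 0, 0, 14, 0], [0, 0, 0, 0, 14, 0], [0, 5, 0, 0, 8, 0], [0, 0, 0, 0, 0, 0],
  [0, 0, 0, 0, 0, 0], [0, 0, 0, 0, 16, 0], [0, 0, 0, 0, 16, 0], [0, 0, 0, 0, 6, 10]],
  [[0, 0, 0, 0, 16, 0], [0, 0, 0, 0, 16, 0], [0, 0, 0, 0, 16, 0], [0, 8, 0, 0, 2, 0],
  [0, 0, 0, 0, 3, 0], [0, 0, 0, 12, 4, 0], [0, 0, 0, 0, 6, 0], [0, 0, 0, 0, 0, 0]],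
  [[0, 0, 0, 0, 0, 10], [0, 0, 0, 0, 0, 10], [0, 0, 0, 0, 0, 10], [0, 0, 0, 0, 0, 10],
  [0, 0, 0, 0, 0, 10], [0, 0, 11, 0, 3, 3], [0, 0, 0, 6, 4, 4], [0, 0, 0, 0, 6, 10]]]

def hint1 : List (List (List ℕ)) := [
  [[0, 0, 0, 0, 0, 0], [0, 0, 0, 0, 0, 0], [0, 0, 0, 0, 0, 0], [0, 5, 0, 0, 2, 0],
  [0, 0, 0, 0, 3, 0], [0, 0, 0, 12, 4, 0], [0, 0, 0, 0, 6, 10], [0, 0, 0, 0, 14, 0]],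
  [[0, 0, 0, 0, 17, 0], [0, 0, 0, 0, 17, 0], [0, 0, 0, 0, 17, 0], [0, 0, 0, 0, 17, 0],
  [0, 0, 16, 0, 3, 0], [0, 0, 0, 12, 4, 0], [0, 0, 0, 0, 6, 10], [0, 0, 0, 0, 0, 0]],
  [[0, 0, 0, 0, 16, 0], [0, 0, 0, 0, 16, 0], [0, 8, 0, 0, 2, 0], [0, 0, 0, 0, 0, 0],
  [0, 0, 0, 0, 0, 0], [0, 0, 0, 14, 4, 0], [0, 0, 0, 0, 6, 10], [0, 0, 0, 0, 14, 0]],
  [[0, 0, 0, 0, 17, 0], [0, 0, 0, 0, 17, 0], [0, 0, 0, 0, 17, 0], [0, 5, 0, 0, 2, 0],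
  [0, 0, 11, 0, 3, 0], [0, 0, 0, 12, 4, 0], [0, 0, 0, 0, 6, 0], [0, 0, 0, 0, 16, 0]],
  [[0, 0, 17, 0, 3, 0], [0, 0, 17, 0, 3, 0], [0, 0, 17, 0, 3, 0], [0, 3, 2, 0, 2, 0],
  [0, 0, 4, 12, 3, 0], [0, 0, 0, 0, 3, 0], [0, 0, 0, 0, 3, 0], [0, 0, 11, 0, 11, 0]],
  [[0, 0, 0, 0, 15, 0], [0, 0, 0, 0, 15, 0], [0, 5, 0, 0, 2, 0], [0, 0, 0, 0, 15, 0],
  [0, 0, 0, 0, 15, 0], [0, 0, 0, 14, 4, 0], [0, 0, 0, 0, 6, 10], [0, 0, 0, 0, 14, 0]],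
  [[0, 0, 0, 0, 16, 0], [0, 0, 0, 0, 16, 0], [0, 5, 0, 0, 2, 0], [0, 0, 17, 0, 3, 0],
  [0, 0, 0, 0, 16, 0], [0, 0, 0, 0, 16, 0], [0, 0, 0, 0, 6, 10], [0, 0, 0, 0, 14, 0]],
  [[0, 0, 15, 0, 15, 0], [0, 0, 15, 0, 15, 0], [0, 0, 15, 0, 15, 0], [0, 3, 2, 0, 2, 0],
  [0, 0, 12, 3, 3, 0], [0, 0, 15, 0, 3, 0], [0, 0, 15, 0, 3, 0], [0, 0, 14, 0, 3, 0]],
  [[0, 0, 0, 0, 17, 0], [0, 0, 0, 0, 17, 0], [0, 0, 0, 0, 17, 0], [0, 0, 0, 0, 17, 0],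
  [0, 0, 11, 0, 3, 0], [0, 0, 0, 12, 4, 0], [0, 0, 0, 0, 6, 11], [0, 0, 0, 0, 17, 0]],
  [[0, 0, 0, 0, 15, 0], [0, 0, 0, 0, 15, 0], [0, 5, 0, 0, 10, 0], [0, 0, 15, 0, 3, 0],
  [0, 0, 0, 0, 15, 0], [0, 0, 0, 0, 15, 0], [0, 0, 0, 0, 6, 10], [0, 0, 0, 0, 14, 0]],
  [[0, 0, 0, 0, 14, 0], [0, 0, 0, 0, 14, 0], [0, 0, 0, 0, 14, 0], [0, 5, 0, 0, 2, 0],
  [0, 0, 11, 0, 3, 0], [0, 0, 0, 0, 4, 0], [0, 0, 0, 0, 6, 11], [0, 0, 0, 0, 18, 0]],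
  [[0, 0, 0, 0, 17, 0], [0, 0, 0, 0, 17, 0], [0, 5, 0, 0, 2, 0], [0, 0, 0, 0, 0, 0],
  [0, 0, 0, 0, 0, 0], [0, 0, 0, 0, 4, 0], [0, 0, 0, 0, 6, 11], [0, 0, 0, 0, 18, 0]],
  [[0, 0, 0, 0, 14, 0], [0, 0, 0, 0, 14, 0], [0, 5, 0, 0, 2, 0], [0, 0, 11, 0, 3, 0],
  [0, 0, 0, 0, 14, 0], [0, 0, 0, 0, 14, 0], [0, 0, 0, 0, 6, 10], [0, 0, 0, 0, 15, 0]],
  [[0, 0, 0, 0, 0, 0], [0, 0, 0, 0, 0, 0], [0, 10, 0, 0, 0, 0], [0, 0, 15, 0, 0, 0],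
  [0, 0, 0, 12, 0, 0], [0, 0, 0, 0, 0, 0], [0, 0, 0, 0, 0, 10], [0, 0, 0, 0, 0, 0]]]

def hint2 : List (List (List ℕ)) := [
  [[8, 0, 0, 0, 0, 0], [0, 0, 0, 0, 0, 0], [0, 0, 0, 0, 0, 0], [0, 0, 9, 0, 0, 0],
  [0, 0, 0, 9, 0, 0], [0, 0, 0, 0, 17, 0], [0, 0, 0, 0, 0, 10], [0, 0, 0, 0, 0, 0]],
  [[0, 0, 0, 0, 0, 10], [0, 0, 0, 0, 0, 10], [0, 0, 0, 0, 0, 10], [0, 5, 0, 0, 2, 2],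
  [0, 0, 0, 0, 3, 10], [0, 0, 0, 6, 4, 4], [0, 0, 0, 0, 11, 10], [0, 0, 0, 0, 6, 10]],
  [[0, 0, 16, 0, 3, 0], [0, 0, 16, 0, 3, 0], [0, 0, 16, 0, 3, 0], [0, 3, 2, 0, 2, 0],
  [0, 0, 4, 3, 3, 0], [0, 0, 6, 0, 3, 10], [0, 0, 0, 0, 3, 0], [0, 0, 0, 0, 3, 0]],
  [[0, 0, 0, 0, 14, 0], [0, 0, 0, 0, 14, 0], [0, 0, 0, 0, 0, 0], [0, 0, 0, 0, 0, 0],
  [0, 0, 11, 0, 3, 0], [0, 0, 0, 14, 4, 0], [0, 0, 0, 0, 6, 10], [0, 0, 0, 0, 18, 0]],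
  [[0, 0, 0, 0, 15, 0], [0, 0, 0, 0, 15, 0], [0, 5, 0, 0, 2, 0], [0, 0, 15, 0, 3, 0],
  [0, 0, 0, 12, 4, 0], [0, 0, 0, 0, 15, 0], [0, 0, 0, 0, 15, 0], [0, 0, 0, 0, 14, 0]],
  [[7, 0, 0, 0, 0, 0], [0, 0, 0, 0, 0, 0], [0, 0, 0, 0, 0, 0], [0, 0, 7, 0, 0, 0],
  [0, 0, 0, 9, 0, 0], [0, 0, 0, 0, 0, 0], [0, 0, 0, 0, 0, 10], [0, 0, 0, 0, 0, 0]],
  [[8, 0, 0, 0, 0, 0], [0, 8, 0, 0, 0, 0], [0, 0, 0, 0, 0, 0], [0, 0, 0, 0, 0, 0],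
  [0, 0, 0, 9, 0, 0], [0, 0, 0, 0, 0, 0], [0, 0, 0, 0, 0, 10], [0, 0, 0, 0, 0, 0]],
  [[0, 0, 0, 0, 0, 0], [0, 0, 0, 0, 0, 0], [0, 8, 0, 0, 0, 0], [0, 0, 15, 0, 0, 0],
  [0, 0, 0, 12, 0, 0], [0, 0, 0, 0, 17, 0], [0, 0, 0, 0, 0, 20], [0, 0, 0, 0, 0, 0]],
  [[0, 0, 0, 0, 20, 0], [0, 0, 0, 0, 20, 0], [0, 10, 0, 0, 2, 0], [0, 0, 0, 0, 3, 0],
  [0, 0, 0, 12, 4, 0], [0, 0, 0, 0, 6, 10], [0, 0, 0, 0, 0, 0], [0, 0, 0, 0, 16, 0]],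
  [[7, 0, 0, 0, 0, 0], [0, 7, 0, 0, 0, 0], [0, 0, 0, 0, 0, 0], [0, 0, 0, 0, 0, 0],
  [0, 0, 0, 9, 0, 0], [0, 0, 0, 0, 0, 0], [0, 0, 0, 0, 0, 10], [0, 0, 0, 0, 0, 0]],
  [[8, 0, 0, 0, 0, 0], [0, 8, 0, 0, 0, 0], [0, 0, 9, 0, 0, 0], [0, 0, 0, 0, 0, 0],
  [0, 0, 0, 0, 0, 0], [0, 0, 0, 0, 17, 0], [0, 0, 0, 0, 0, 10], [0, 0, 0, 0, 0, 0]],
  [[7, 0, 0, 0, 0, 0], [0, 0, 0, 0, 0, 0], [0, 0, 0, 0, 0, 0], [0, 0, 7, 0, 0, 0],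
  [0, 0, 0, 9, 0, 0], [0, 0, 0, 0, 17, 0], [0, 0, 0, 0, 0, 13], [0, 0, 0, 0, 0, 0]],
  [[0, 0, 0, 0, 14, 0], [0, 0, 0, 0, 14, 0], [0, 0, 0, 0, 14, 0], [0, 5, 0, 0, 2, 0],
  [0, 0, 11, 0, 3, 0], [0, 0, 0, 14, 4, 0], [0, 0, 0, 0, 6, 0], [0, 0, 0, 0, 0, 0]],
  [[0, 0, 0, 0, 21, 0], [0, 0, 0, 0, 21, 0], [0, 0, 0, 0, 21, 0], [0, 5, 0, 0, 2, 2],
  [0, 0, 11, 0, 3, 3], [0, 0, 0, 6, 4, 4], [0, 0, 0, 0, 6, 0], [0, 0, 0, 0, 6, 11]]]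

def hint3 : List (List (List ℕ)) := [
  [[0, 0, 0, 0, 4, 0], [0, 0, 0, 0, 4, 0], [0, 0, 0, 0, 4, 0], [0, 5, 0, 2, 2, 0],
  [0, 0, 4, 3, 3, 0], [0, 0, 0, 6, 4, 4], [0, 0, 0, 13, 4, 0], [0, 0, 0, 14, 4, 0]],
  [[0, 0, 17, 0, 17, 0], [0, 0, 17, 0, 17, 0], [0, 0, 17, 0, 17, 0], [0, 3, 2, 0, 2, 0],
  [0, 0, 4, 3, 3, 0], [0, 0, 10, 0, 3, 3], [0, 0, 11, 0, 3, 0], [0, 0, 16, 0, 3, 0]],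
  [[0, 0, 11, 0, 11, 0], [0, 0, 11, 0, 11, 0], [0, 0, 11, 0, 11, 0], [0, 3, 2, 0, 2, 0],
  [0, 0, 4, 3, 3, 0], [0, 0, 6, 0, 3, 3], [0, 0, 11, 0, 3, 0], [0, 0, 11, 0, 3, 0]],
  [[0, 0, 0, 9, 4, 0], [0, 0, 0, 9, 4, 0], [0, 5, 0, 2, 2, 0], [0, 0, 0, 12, 12, 0],
  [0, 0, 0, 12, 12, 0], [0, 0, 0, 6, 4, 4], [0, 0, 0, 19, 4, 0], [0, 0, 0, 15, 4, 0]],
  [[7, 0, 0, 0, 0, 0], [0, 7, 0, 0, 0, 0], [0, 0, 0, 0, 0, 0], [0, 0, 0, 0, 0, 0],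
  [0, 0, 0, 9, 0, 0], [0, 0, 0, 0, 17, 0], [0, 0, 0, 0, 0, 13], [0, 0, 0, 0, 0, 0]],
  [[0, 0, 0, 0, 14, 0], [0, 0, 0, 0, 14, 0], [0, 0, 0, 0, 0, 0], [0, 0, 0, 0, 0, 0],
  [0, 0, 11, 0, 3, 0], [0, 0, 0, 12, 4, 0], [0, 0, 0, 0, 6, 0], [0, 0, 0, 0, 0, 0]],
  [[0, 0, 0, 0, 0, 0], [0, 0, 0, 0, 0, 0], [0, 5, 0, 0, 2, 0], [0, 0, 15, 0, 3, 0],
  [0, 0, 0, 12, 12, 0], [0, 0, 0, 0, 6, 0], [0, 0, 0, 0, 20, 0], [0, 0, 0, 0, 0, 0]],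
  [[0, 0, 5, 0, 3, 0], [0, 0, 5, 0, 3, 0], [0, 3, 2, 0, 2, 0], [0, 0, 4, 3, 3, 0],
  [0, 0, 20, 0, 3, 0], [0, 0, 20, 0, 3, 0], [0, 0, 15, 0, 0, 0], [0, 0, 16, 0, 3, 0]],
  [[0, 0, 0, 0, 14, 0], [0, 0, 0, 0, 14, 0], [0, 5, 0, 0, 2, 0], [0, 0, 0, 0, 0, 0],
  [0, 0, 0, 0, 0, 0], [0, 0, 0, 14, 4, 0], [0, 0, 0, 0, 6, 10], [0, 0, 0, 0, 22, 0]],
  [[0, 0, 0, 0, 14, 0], [0, 0, 0, 0, 14, 0], [0, 5, 0, 0, 2, 0], [0, 0, 11, 0, 3, 0],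
  [0, 0, 0, 0, 14, 0], [0, 0, 0, 0, 14, 0], [0, 0, 0, 0, 6, 10], [0, 0, 0, 0, 14, 0]],
  [[0, 0, 0, 0, 0, 0], [0, 0, 0, 0, 0, 0], [0, 5, 0, 0, 2, 0], [0, 0, 17, 0, 3, 0],
  [0, 0, 0, 14, 4, 0], [0, 0, 0, 0, 6, 10], [0, 0, 0, 0, 14, 0], [0, 0, 0, 0, 20, 0]],
  [[0, 0, 0, 0, 20, 0], [0, 0, 0, 0, 20, 0], [0, 5, 0, 0, 2, 0], [0, 0, 11, 0, 3, 0],
  [0, 0, 0, 12, 4, 0], [0, 0, 0, 0, 6, 11], [0, 0, 0, 0, 20, 0], [0, 0, 0, 0, 14, 0]],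
  [[5, 0, 0, 0, 7, 0], [0, 0, 0, 0, 21, 0], [0, 0, 0, 0, 21, 0], [0, 0, 5, 0, 3, 0],
  [0, 0, 0, 5, 4, 0], [0, 0, 0, 0, 6, 5], [0, 0, 0, 0, 20, 0], [0, 0, 0, 0, 20, 0]],
  [[5, 0, 0, 0, 1, 0], [0, 5, 0, 0, 2, 0], [0, 0, 0, 0, 21, 0], [0, 0, 0, 0, 21, 0],
  [0, 0, 0, 5, 4, 0], [0, 0, 0, 0, 6, 5], [0, 0, 0, 0, 21, 0], [0, 0, 0, 0, 16, 0]]]

def hint4 : List (List (List ℕ)) := [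
  [[9, 0, 0, 0, 0, 0], [0, 10, 0, 0, 0, 0], [0, 0, 9, 0, 0, 0], [0, 0, 0, 9, 0, 0],
  [0, 0, 0, 0, 21, 0], [0, 0, 0, 0, 0, 10], [0, 0, 0, 0, 0, 0], [0, 0, 0, 0, 0, 0]],
  [[0, 0, 0, 0, 15, 0], [0, 0, 0, 0, 15, 0], [0, 5, 0, 0, 0, 0], [0, 0, 0, 0, 3, 0],
  [0, 0, 0, 14, 14, 0], [0, 0, 0, 0, 6, 10], [0, 0, 0, 0, 14, 0], [0, 0, 0, 0, 15, 0]],
  [[5, 0, 0, 0, 1, 0], [0, 5, 0, 0, 2, 0], [0, 0, 0, 0, 21, 0], [0, 0, 0, 0, 21, 0],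
  [0, 0, 0, 5, 4, 0], [0, 0, 0, 0, 6, 5], [0, 0, 0, 0, 21, 0], [0, 0, 0, 0, 0, 0]],
  [[0, 0, 0, 0, 14, 0], [0, 0, 0, 0, 14, 0], [0, 0, 0, 0, 14, 0], [0, 5, 0, 0, 2, 0],
  [0, 0, 11, 0, 3, 0], [0, 0, 0, 12, 4, 0], [0, 0, 0, 0, 6, 11], [0, 0, 0, 0, 16, 0]],
  [[0, 0, 0, 0, 14, 0], [0, 0, 0, 0, 14, 0], [0, 5, 0, 0, 2, 0], [0, 0, 0, 0, 0, 0],
  [0, 0, 0, 0, 0, 0], [0, 0, 0, 15, 4, 0], [0, 0, 0, 0, 6, 10], [0, 0, 0, 0, 14, 0]],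
  [[0, 0, 0, 0, 0, 0], [0, 0, 0, 0, 0, 0], [0, 8, 0, 0, 0, 0], [0, 0, 14, 0, 0, 0],
  [0, 0, 0, 15, 0, 0], [0, 0, 0, 0, 17, 0], [0, 0, 0, 0, 0, 10], [0, 0, 0, 0, 0, 0]],
  [[0, 0, 0, 9, 0, 0], [0, 0, 0, 9, 0, 0], [0, 0, 0, 7, 0, 0], [0, 0, 4, 3, 0, 0],
  [0, 0, 0, 14, 4, 0], [0, 0, 0, 6, 0, 4], [0, 0, 0, 8, 0, 0], [0, 0, 0, 15, 0, 0]],
  [[0, 0, 0, 0, 14, 0], [0, 0, 0, 0, 14, 0], [0, 0, 0, 0, 14, 0], [0, 5, 0, 0, 2, 0],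
  [0, 0, 19, 0, 3, 0], [0, 0, 0, 12, 4, 0], [0, 0, 0, 0, 6, 22], [0, 0, 0, 0, 17, 0]],
  [[0, 0, 0, 0, 16, 0], [0, 0, 0, 0, 16, 0], [0, 0, 0, 0, 16, 0], [0, 5, 0, 0, 2, 0],
  [0, 0, 11, 0, 3, 0], [0, 0, 0, 12, 4, 0], [0, 0, 0, 0, 6, 14], [0, 0, 0, 0, 16, 0]],
  [[0, 0, 0, 0, 0, 0], [0, 0, 0, 0, 0, 0], [0, 0, 0, 0, 0, 0], [0, 5, 0, 0, 2, 2],
  [0, 0, 11, 0, 3, 3], [0, 0, 0, 6, 4, 4], [0, 0, 0, 0, 6, 14], [0, 0, 0, 0, 22, 14]],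
  [[0, 0, 0, 0, 15, 0], [0, 0, 0, 0, 15, 0], [0, 0, 0, 0, 22, 0], [0, 0, 0, 0, 22, 0],
  [0, 0, 11, 0, 3, 0], [0, 0, 0, 12, 4, 0], [0, 0, 0, 0, 6, 10], [0, 0, 0, 0, 15, 0]],
  [[0, 0, 0, 0, 17, 0], [0, 0, 0, 0, 17, 0], [0, 5, 0, 0, 2, 0], [0, 0, 17, 0, 3, 0],
  [0, 0, 0, 14, 4, 0], [0, 0, 0, 0, 6, 0], [0, 0, 0, 0, 0, 0], [0, 0, 0, 0, 22, 0]],
  [[0, 0, 0, 0, 24, 0], [0, 0, 0, 0, 24, 0], [0, 5, 0, 0, 2, 0], [0, 0, 0, 0, 3, 0],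
  [0, 0, 0, 12, 4, 0], [0, 0, 0, 0, 6, 10], [0, 0, 0, 0, 14, 0], [0, 0, 0, 0, 21, 0]],
  [[0, 0, 0, 0, 0, 5], [0, 0, 0, 0, 0, 5], [0, 5, 0, 0, 2, 2], [0, 0, 17, 0, 3, 3],
  [0, 0, 0, 6, 4, 4], [0, 0, 0, 0, 6, 11], [0, 0, 0, 0, 6, 0], [0, 0, 0, 0, 6, 12]]]

def hint5 : List (List (List ℕ)) := [
  [[0, 0, 5, 0, 3, 0], [0, 0, 5, 0, 3, 0], [0, 3, 2, 0, 2, 0], [0, 0, 4, 3, 3, 0],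
  [0, 0, 21, 0, 3, 0], [0, 0, 21, 0, 3, 0], [0, 0, 14, 0, 3, 0], [0, 0, 0, 0, 3, 0]],
  [[0, 7, 0, 0, 0, 0], [0, 7, 0, 0, 0, 0], [0, 3, 2, 0, 0, 0], [0, 7, 0, 2, 0, 0],
  [0, 0, 0, 0, 2, 0], [0, 6, 0, 0, 0, 2], [0, 8, 0, 0, 0, 0], [0, 10, 0, 0, 0, 0]],
  [[8, 0, 0, 0, 0, 0], [0, 8, 0, 0, 0, 0], [0, 0, 9, 0, 0, 0], [0, 0, 0, 9, 0, 0],
  [0, 0, 0, 0, 0, 0], [0, 0, 0, 0, 0, 10], [0, 0, 0, 0, 0, 0], [0, 0, 0, 0, 0, 0]],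
  [[7, 0, 0, 0, 1, 0], [0, 5, 0, 0, 2, 0], [0, 0, 5, 0, 3, 0], [0, 0, 0, 5, 4, 0],
  [0, 0, 0, 0, 21, 0], [0, 0, 0, 0, 21, 0], [0, 0, 0, 0, 20, 0], [0, 0, 0, 0, 24, 0]],
  [[0, 0, 0, 0, 14, 0], [0, 0, 0, 0, 14, 0], [0, 0, 0, 0, 17, 0], [0, 0, 0, 0, 17, 0],
  [0, 0, 11, 0, 3, 0], [0, 0, 0, 12, 4, 0], [0, 0, 0, 0, 6, 10], [0, 0, 0, 0, 14, 0]],
  [[0, 0, 0, 0, 14, 5], [0, 0, 0, 0, 14, 5], [0, 0, 0, 0, 0, 25], [0, 0, 0, 0, 0, 25],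
  [0, 0, 11, 0, 3, 3], [0, 0, 0, 6, 4, 4], [0, 0, 0, 0, 6, 10], [0, 0, 0, 0, 10, 10]],
  [[0, 0, 0, 0, 0, 0], [0, 0, 0, 0, 0, 0], [0, 5, 0, 0, 2, 0], [0, 0, 18, 0, 3, 0],
  [0, 0, 0, 12, 4, 0], [0, 0, 0, 0, 6, 25], [0, 0, 0, 0, 14, 0], [0, 0, 0, 0, 23, 0]],
  [[0, 0, 0, 0, 21, 5], [0, 0, 0, 0, 21, 5], [0, 5, 0, 0, 2, 2], [0, 0, 21, 0, 3, 3],
  [0, 0, 0, 6, 4, 4], [0, 0, 0, 0, 11, 11], [0, 0, 0, 0, 10, 25], [0, 0, 0, 0, 6, 17]],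
  [[5, 0, 0, 0, 1, 0], [0, 5, 0, 0, 2, 0], [0, 0, 5, 0, 3, 0], [0, 0, 0, 5, 4, 0],
  [0, 0, 0, 0, 0, 0], [0, 0, 0, 0, 0, 0], [0, 0, 0, 0, 14, 0], [0, 0, 0, 0, 16, 0]],
  [[0, 5, 0, 0, 2, 0], [0, 5, 0, 0, 2, 0], [0, 3, 2, 0, 2, 0], [0, 4, 0, 2, 2, 0],
  [0, 5, 0, 0, 2, 2], [0, 5, 0, 0, 2, 0], [0, 5, 0, 0, 2, 0], [0, 5, 0, 0, 2, 0]],
  [[5, 0, 0, 0, 1, 0], [0, 5, 0, 0, 2, 0], [0, 0, 0, 0, 0, 0], [0, 0, 0, 0, 0, 0],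
  [0, 0, 0, 5, 4, 0], [0, 0, 0, 0, 6, 5], [0, 0, 0, 0, 14, 0], [0, 0, 0, 0, 21, 0]],
  [[0, 0, 0, 0, 15, 0], [0, 0, 0, 0, 15, 0], [0, 5, 0, 0, 2, 0], [0, 0, 20, 0, 3, 0],
  [0, 0, 0, 12, 4, 0], [0, 0, 0, 0, 6, 10], [0, 0, 0, 0, 14, 0], [0, 0, 0, 0, 15, 0]],
  [[0, 0, 5, 0, 3, 0], [0, 0, 5, 0, 3, 0], [0, 3, 2, 0, 2, 0], [0, 0, 4, 3, 3, 0],
  [0, 0, 20, 0, 3, 0], [0, 0, 20, 0, 3, 0], [0, 0, 14, 0, 3, 0], [0, 0, 20, 0, 3, 0]],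
  [[0, 0, 0, 0, 14, 0], [0, 0, 0, 0, 14, 0], [0, 5, 0, 0, 2, 0], [0, 0, 0, 0, 15, 0],
  [0, 0, 0, 0, 15, 0], [0, 0, 0, 15, 4, 0], [0, 0, 0, 0, 6, 10], [0, 0, 0, 0, 16, 0]]]

def hint6 : List (List (List ℕ)) := [
  [[0, 0, 0, 0, 16, 0], [0, 0, 0, 0, 16, 0], [0, 5, 0, 0, 2, 0], [0, 0, 17, 0, 3, 0],
  [0, 0, 0, 12, 4, 0], [0, 0, 0, 0, 6, 0], [0, 0, 0, 0, 14, 0], [0, 0, 0, 0, 16, 0]],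
  [[0, 0, 0, 0, 14, 0], [0, 0, 0, 0, 14, 0], [0, 5, 0, 0, 2, 0], [0, 0, 11, 0, 3, 0],
  [0, 0, 0, 0, 4, 0], [0, 0, 0, 0, 6, 10], [0, 0, 0, 0, 14, 0], [0, 0, 0, 0, 14, 0]],
  [[8, 0, 0, 0, 0, 0], [0, 8, 0, 0, 0, 0], [0, 0, 9, 0, 0, 0], [0, 0, 0, 9, 0, 0],
  [0, 0, 0, 0, 17, 0], [0, 0, 0, 0, 0, 15], [0, 0, 0, 0, 0, 0], [0, 0, 0, 0, 0, 0]],
  [[7, 0, 0, 0, 0, 0], [0, 7, 0, 0, 0, 0], [0, 0, 7, 0, 0, 0], [0, 0, 0, 9, 0, 0],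
  [0, 0, 0, 0, 0, 0], [0, 0, 0, 0, 0, 10], [0, 0, 0, 0, 0, 0], [0, 0, 0, 0, 0, 0]],
  [[0, 0, 0, 0, 14, 0], [0, 0, 0, 0, 14, 0], [0, 5, 0, 0, 2, 0], [0, 0, 11, 0, 3, 0],
  [0, 0, 0, 14, 4, 0], [0, 0, 0, 0, 6, 13], [0, 0, 0, 0, 0, 0], [0, 0, 0, 0, 0, 0]],
  [[7, 0, 0, 0, 0, 0], [0, 7, 0, 0, 0, 0], [0, 0, 7, 0, 0, 0], [0, 0, 0, 9, 0, 0],
  [0, 0, 0, 0, 23, 0], [0, 0, 0, 0, 0, 10], [0, 0, 0, 0, 0, 0], [0, 0, 0, 0, 0, 0]],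
  [[5, 0, 0, 0, 1, 0], [0, 5, 0, 0, 2, 0], [0, 0, 5, 0, 3, 0], [0, 0, 0, 5, 4, 0],
  [0, 0, 0, 0, 6, 5], [0, 0, 0, 0, 21, 0], [0, 0, 0, 0, 25, 0], [0, 0, 0, 0, 20, 0]],
  [[0, 0, 0, 0, 0, 5], [0, 0, 0, 0, 0, 5], [0, 5, 0, 0, 2, 2], [0, 0, 17, 0, 3, 3],
  [0, 0, 0, 6, 4, 4], [0, 0, 0, 0, 13, 10], [0, 0, 0, 0, 6, 10], [0, 0, 0, 0, 6, 10]],
  [[5, 0, 0, 0, 1, 0], [0, 5, 0, 0, 2, 0], [0, 0, 5, 0, 3, 0], [0, 0, 0, 5, 4, 0],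
  [0, 0, 0, 0, 15, 0], [0, 0, 0, 0, 15, 0], [0, 0, 0, 0, 14, 0], [0, 0, 0, 0, 15, 0]],
  [[5, 0, 0, 0, 1, 0], [0, 5, 0, 0, 2, 0], [0, 0, 5, 0, 3, 0], [0, 0, 0, 5, 4, 0],
  [0, 0, 0, 0, 6, 5], [0, 0, 0, 0, 14, 0], [0, 0, 0, 0, 0, 0], [0, 0, 0, 0, 16, 0]],
  [[0, 0, 0, 0, 15, 0], [0, 0, 0, 0, 15, 0], [0, 5, 0, 0, 2, 0], [0, 0, 18, 0, 3, 0],
  [0, 0, 0, 12, 4, 0], [0, 0, 0, 0, 6, 10], [0, 0, 0, 0, 14, 0], [0, 0, 0, 0, 25, 0]],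
  [[5, 0, 0, 0, 1, 0], [0, 5, 0, 0, 2, 0], [0, 0, 5, 0, 3, 0], [0, 0, 0, 5, 4, 0],
  [0, 0, 0, 0, 6, 5], [0, 0, 0, 0, 20, 0], [0, 0, 0, 0, 20, 0], [0, 0, 0, 0, 15, 0]],
  [[0, 0, 0, 0, 17, 0], [0, 0, 0, 0, 17, 0], [0, 5, 0, 0, 2, 0], [0, 0, 11, 0, 3, 0],
  [0, 0, 0, 12, 4, 0], [0, 0, 0, 0, 6, 11], [0, 0, 0, 0, 16, 0], [0, 0, 0, 0, 19, 0]],
  [[0, 0, 0, 0, 14, 0], [0, 0, 0, 0, 14, 0], [0, 5, 0, 0, 2, 0], [0, 0, 11, 0, 3, 0],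
  [0, 0, 0, 14, 4, 0], [0, 0, 0, 0, 6, 11], [0, 0, 0, 0, 14, 0], [0, 0, 0, 0, 16, 0]]]

def hint7 : List (List (List ℕ)) := [
  [[0, 0, 0, 9, 4, 0], [0, 0, 0, 9, 4, 0], [0, 5, 0, 2, 2, 0], [0, 0, 4, 3, 3, 0],
  [0, 0, 0, 6, 4, 4], [0, 0, 0, 13, 4, 0], [0, 0, 0, 14, 4, 0], [0, 0, 0, 24, 4, 0]],
  [[5, 0, 0, 0, 1, 0], [0, 5, 0, 0, 2, 0], [0, 0, 5, 0, 3, 0], [0, 0, 0, 5, 4, 0],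
  [0, 0, 0, 0, 6, 5], [0, 0, 0, 0, 20, 0], [0, 0, 0, 0, 20, 0], [0, 0, 0, 0, 21, 0]],
  [[0, 0, 0, 0, 15, 0], [0, 0, 0, 0, 15, 0], [0, 5, 0, 0, 2, 0], [0, 0, 11, 0, 3, 0],
  [0, 0, 0, 14, 4, 0], [0, 0, 0, 0, 6, 10], [0, 0, 0, 0, 14, 0], [0, 0, 0, 0, 14, 0]],
  [[0, 0, 0, 0, 14, 0], [0, 0, 0, 0, 14, 0], [0, 5, 0, 0, 2, 0], [0, 0, 11, 0, 3, 0],
  [0, 0, 0, 12, 4, 0], [0, 0, 0, 0, 6, 14], [0, 0, 0, 0, 14, 0], [0, 0, 0, 0, 23, 0]],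
  [[0, 0, 0, 0, 28, 5], [0, 0, 0, 0, 28, 5], [0, 5, 0, 0, 2, 2], [0, 0, 25, 0, 3, 3],
  [0, 0, 0, 6, 4, 4], [0, 0, 0, 0, 6, 10], [0, 0, 0, 0, 6, 10], [0, 0, 0, 0, 6, 0]],
  [[0, 0, 0, 0, 17, 0], [0, 0, 0, 0, 17, 0], [0, 5, 0, 0, 2, 0], [0, 0, 11, 0, 3, 0],
  [0, 0, 0, 12, 4, 0], [0, 0, 0, 0, 6, 11], [0, 0, 0, 0, 14, 0], [0, 0, 0, 0, 17, 0]],
  [[5, 0, 0, 0, 1, 0], [0, 5, 0, 0, 2, 0], [0, 0, 5, 0, 3, 0], [0, 0, 0, 5, 4, 0],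
  [0, 0, 0, 0, 6, 5], [0, 0, 0, 0, 14, 0], [0, 0, 0, 0, 0, 0], [0, 0, 0, 0, 0, 0]],
  [[0, 0, 0, 0, 17, 0], [0, 0, 0, 0, 17, 0], [0, 5, 0, 0, 2, 0], [0, 0, 23, 0, 3, 0],
  [0, 0, 0, 12, 4, 0], [0, 0, 0, 0, 6, 10], [0, 0, 0, 0, 14, 0], [0, 0, 0, 0, 16, 0]],
  [[7, 0, 0, 0, 0, 0], [0, 7, 0, 0, 0, 0], [0, 0, 7, 0, 0, 0], [0, 0, 0, 9, 0, 0],
  [0, 0, 0, 0, 17, 0], [0, 0, 0, 0, 0, 13], [0, 0, 0, 0, 0, 0], [0, 0, 0, 0, 0, 0]],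
  [[0, 0, 0, 0, 15, 0], [0, 0, 0, 0, 15, 0], [0, 5, 0, 0, 2, 0], [0, 0, 22, 0, 3, 0],
  [0, 0, 0, 12, 4, 0], [0, 0, 0, 0, 6, 10], [0, 0, 0, 0, 14, 0], [0, 0, 0, 0, 15, 0]],
  [[7, 0, 0, 0, 0, 0], [0, 7, 0, 0, 0, 0], [0, 0, 7, 0, 0, 0], [0, 0, 0, 9, 0, 0],
  [0, 0, 0, 0, 17, 0], [0, 0, 0, 0, 0, 13], [0, 0, 0, 0, 0, 0], [0, 0, 0, 0, 0, 0]],
  [[0, 0, 0, 0, 27, 5], [0, 0, 0, 0, 27, 5], [0, 5, 0, 0, 2, 2], [0, 0, 17, 0, 3, 3],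
  [0, 0, 0, 6, 4, 4], [0, 0, 0, 0, 6, 10], [0, 0, 0, 0, 6, 10], [0, 0, 0, 0, 6, 10]],
  [[5, 0, 0, 0, 1, 0], [0, 5, 0, 0, 2, 0], [0, 0, 5, 0, 3, 0], [0, 0, 0, 5, 4, 0],
  [0, 0, 0, 0, 6, 5], [0, 0, 0, 0, 14, 0], [0, 0, 0, 0, 16, 0], [0, 0, 0, 0, 27, 0]],
  [[5, 0, 0, 0, 1, 0], [0, 5, 0, 0, 2, 0], [0, 0, 5, 0, 3, 0], [0, 0, 0, 5, 4, 0],
  [0, 0, 0, 0, 6, 5], [0, 0, 0, 0, 14, 0], [0, 0, 0, 0, 16, 0], [0, 0, 0, 0, 23, 0]]]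

def Rl : List (List ℕ) := RG.flatMap fun g => g.2

/-- The check for one element of the table. -/
def chkRow (l : List ℕ) (h : List (List ℕ)) : Bool :=
  (List.range 8).all fun i => (List.range 6).all fun t =>
    ((l.getD i 0 + (t + 1)) :: l.erase (l.getD i 0)).contains (t + 1) ||
      good ((l.getD i 0 + (t + 1)) :: l.erase (l.getD i 0)) ((h.getD i []).getD t 0)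

lemma chk0 : (List.range 14).all (fun r => chkRow (Rl.getD (0 + r) []) (hint0.getD r [])) =
    true := by
  decide +kernel

lemma chk1 : (List.range 14).all (fun r => chkRow (Rl.getD (14 + r) []) (hint1.getD r [])) =
    true := by
  decide +kernel

lemma chk2 : (List.range 14).all (fun r => chkRow (Rl.getD (28 + r) []) (hint2.getD r [])) =
    true := by
  decide +kernel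

lemma chk3 : (List.range 14).all (fun r => chkRow (Rl.getD (42 + r) []) (hint3.getD r [])) =
    true := by
  decide +kernel

lemma chk4 : (List.range 14).all (fun r => chkRow (Rl.getD (56 + r) []) (hint4.getD r [])) =
    true := by
  decide +kernel

lemma chk5 : (List.range 14).all (fun r => chkRow (Rl.getD (70 + r) []) (hint5.getD r [])) =
    true := by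
  decide +kernel

lemma chk6 : (List.range 14).all (fun r => chkRow (Rl.getD (84 + r) []) (hint6.getD r [])) =
    true := by
  decide +kernel

lemma chk7 : (List.range 14).all (fun r => chkRow (Rl.getD (98 + r) []) (hint7.getD r [])) =
    true := by
  decide +kernel

end Pool.Agent.R25.Rp
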